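import Pool.Agent.NPC.Defs

/-!
# Polynomial space, and reachability of a subset of fixed size in a DFA

Polynomial time and space are measured with Mathlib's Turing machines `Turing.FinTM2` (multi-stack
machines); `PolyTime`, `Reduces` and the encoding of structured data by bit strings are those of
`Pool.Agent.NPC.Defs`.
-/

namespace Pool.Agent.H623R2.PS

open Turing Pool.Agent.NPC

/-- The space used by a configuration: the total number of symbols on its stacks. -/
def space {tm : FinTM2} (c : tm.Cfg) : ℕ :=
  letI := tm.kFin
  ∑ k, (c.stk k).length

/-- The class `PSPACE`: some Turing machine decides `L` (it halts on every input `x`, with output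
`true` if `x ∈ L` and `false` otherwise), and for some polynomial `p` no configuration reached from
the input `x` uses more than `p |x|` space. -/
def InPSPACE (L : Set (List Bool)) : Prop :=
  ∃ (f : List Bool → Bool) (M : TM2Computable (id : List Bool → List Bool) (fun b : Bool => [b]) f)
    (p : Polynomial ℕ), (∀ x, x ∈ L ↔ f x = true) ∧
      ∀ (x : List Bool) (c : M.tm.Cfg), StateTransition.Reaches M.tm.step (initList M.tm (x.map M.inputAlphabet.invFun)) c →
        space c ≤ p.eval x.length

/-- `PSPACE`-hardness under polynomial-time many-one reductions. -/
def PSPACEHard (L : Set (List Bool)) : Prop := ∀ L', InPSPACE L' → Reduces L' L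

/-- `PSPACE`-completeness under polynomial-time many-one reductions. -/
def PSPACEComplete (L : Set (List Bool)) : Prop := InPSPACE L ∧ PSPACEHard L

/-- An instance of the subset reachability problem: a DFA with states `Fin n`, letters `Fin m` and
transition function `δ`, and a set `P` of states. -/
structure Inst where
  /-- the number of states -/
  n : ℕ
  /-- the number of letters -/
  m : ℕ
  /-- the transition function -/
  δ : Fin n → Fin m → Fin n
  /-- the target set -/
  P : Finset (Fin n)

/-- `Q . w`, the image of the whole state set under the word `w`. -/
def Inst.image (I : Inst) (w : List (Fin I.m)) : Finset (Fin I.n) :=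
  Finset.univ.image fun q => w.foldl I.δ q

/-- The decision problem REACHABLE SUBSET_k: the target set has `k` elements and is `Q . w` for
some word `w`. -/
def ReachableSubset (k : ℕ) (I : Inst) : Prop :=
  I.P.card = k ∧ ∃ w : List (Fin I.m), I.image w = I.P

/-- An instance is encoded by the numbers of its states and letters, the transition table (one row
per letter) and the characteristic vector of the target set. -/
def Inst.code (I : Inst) : ℕ × ℕ × List (List ℕ) × List Bool :=
  (I.n, I.m, (List.finRange I.m).map fun a => (List.finRange I.n).map fun q => (I.δ q a).val,
    (List.finRange I.n).map fun q => decide (q ∈ I.P))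

theorem Inst.code_injective : Function.Injective Inst.code := by
  rintro ⟨n, m, δ, P⟩ ⟨n', m', δ', P'⟩ h
  simp only [Inst.code, Prod.mk.injEq] at h
  obtain ⟨rfl, rfl, h1, h2⟩ := h
  have e1 : δ = δ' := by
    funext q a
    have h3 := (List.map_inj_left.1 h1) a (List.mem_finRange a)
    have h4 := (List.map_inj_left.1 h3) q (List.mem_finRange q)
    exact Fin.ext h4
  have e2 : P = P' := by
    ext q
    have h3 := (List.map_inj_left.1 h2) q (List.mem_finRange q)
    simpa using h3
  rw [e1, e2]

instance : TEnc Inst := ⟨fun I => toT I.code, fun _ _ h => Inst.code_injective (TEnc.inj h)⟩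

end Pool.Agent.H623R2.PS
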