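import Pool.Agent.H671R2.PolyAuto
import Pool.Agent.H623R2.PS.Space

/-!
# Evaluation of quantifiers over bits in polynomial space
-/

namespace Pool.Agent.H623R2.PS

open Pool.Agent.NPC

/-- A digit of the counter: the quantifier of its level, and the value of the left subtree if it is
already known. -/
abbrev Dg := Bool × Option Bool

/-- Adding a value at one level, with carry. -/
def incStep (d : Dg) (s : List Dg × Option Bool) : List Dg × Option Bool :=
  s.2.elim (d :: s.1, none) fun w =>
    d.2.elim ((d.1, some w) :: s.1, none) fun v =>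
      ((d.1, none) :: s.1, some (bif d.1 then v && w else v || w))

/-- Adding a value at the lowest level (the end of the list). -/
def inc (l : List Dg) (v : Bool) : List Dg × Option Bool := l.foldr incStep ([], some v)

/-- The assignment of the current leaf. -/
def leafOf (l : List Dg) : List Bool := l.map fun d => d.2.isSome

/-- Evaluation of a list of quantifiers (`true` for universal, `false` for existential). -/
def evq : List Bool → (List Bool → Bool) → Bool
  | [], φ => φ []
  | q :: qs, φ => bif q then evq qs (fun u => φ (false :: u)) && evq qs (fun u => φ (true :: u))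
      else evq qs (fun u => φ (false :: u)) || evq qs (fun u => φ (true :: u))

theorem foldr_none (l t : List Dg) : l.foldr incStep (t, none) = (l ++ t, none) := by
  induction l with
  | nil => rfl
  | cons d l ih => rw [List.foldr_cons, ih]; rfl

theorem foldr_some (l t : List Dg) (v : Bool) :
    l.foldr incStep (t, some v) = ((inc l v).1 ++ t, (inc l v).2) := by
  induction l with
  | nil => rfl
  | cons d l ih =>
    rw [List.foldr_cons, ih]
    have e : inc (d :: l) v = incStep d (inc l v) := rfl
    rw [e]
    obtain ⟨l', c⟩ := inc l v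
    cases c with
    | none => rfl
    | some w =>
      obtain ⟨q, o⟩ := d
      cases o with
      | none => rfl
      | some v' => rfl

theorem inc_length (l : List Dg) (v : Bool) : (inc l v).1.length = l.length := by
  induction l with
  | nil => rfl
  | cons d l ih =>
    have e : inc (d :: l) v = incStep d (inc l v) := rfl
    rw [e]
    revert ih
    obtain ⟨l', c⟩ := inc l v
    intro ih
    cases c with
    | none => simpa [incStep] using ih
    | some w =>
      obtain ⟨q, o⟩ := d
      cases o with
      | none => simpa [incStep] using ih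
      | some v' => simpa [incStep] using ih

/-- One step of the evaluation. -/
def qstep {α : Type} (φ : α → List Bool → Bool) (x : α × (List Dg × Option Bool)) :
    Bool × (α × (List Dg × Option Bool)) :=
  ((inc x.2.1 (φ x.1 (leafOf x.2.1))).2.isSome, (x.1, inc x.2.1 (φ x.1 (leafOf x.2.1))))

section Correct

variable {α : Type} (φ : α → List Bool → Bool) (a : α)

theorem run_block (qs : List Bool) (pre : List Dg) (r : Option Bool) :
    ∃ n, (∀ i < n, (qstep φ ((fun b => (qstep φ b).2)^[i]
        (a, (pre ++ qs.map fun q => (q, none)), r))).1 = false) ∧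
      (fun b => (qstep φ b).2)^[n + 1] (a, (pre ++ qs.map fun q => (q, none)), r) =
        (a, (inc pre (evq qs fun u => φ a (leafOf pre ++ u))).1 ++ (qs.map fun q => (q, none)),
          (inc pre (evq qs fun u => φ a (leafOf pre ++ u))).2) ∧
      (qstep φ ((fun b => (qstep φ b).2)^[n] (a, (pre ++ qs.map fun q => (q, none)), r))).1 =
        (inc pre (evq qs fun u => φ a (leafOf pre ++ u))).2.isSome := by
  induction qs generalizing pre r with
  | nil =>
    refine ⟨0, by simp, ?_, ?_⟩
    · simp [qstep, evq]
    · simp [qstep, evq]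
  | cons q qs ih =>
    obtain ⟨n1, h1, h2, h3⟩ := ih (pre ++ [(q, none)]) r
    have e1 : ∀ w, inc (pre ++ [(q, none)]) w = (pre ++ [(q, some w)], none) := by
      intro w
      unfold inc
      rw [List.foldr_append]
      show List.foldr incStep ([(q, some w)], none) pre = _
      rw [foldr_none]
    have e2 : ∀ v w, inc (pre ++ [(q, some v)]) w =
        ((inc pre (bif q then v && w else v || w)).1 ++ [(q, none)],
          (inc pre (bif q then v && w else v || w)).2) := by
      intro v w
      have : inc (pre ++ [(q, some v)]) w = List.foldr incStep ([(q, none)],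
          some (bif q then v && w else v || w)) pre := by
        unfold inc
        rw [List.foldr_append]
        rfl
      rw [this, foldr_some]
    have a1 : ∀ (o : Option Bool), pre ++ List.map (fun q => ((q, none) : Dg)) (q :: qs) =
        (pre ++ [(q, none)]) ++ List.map (fun q => ((q, none) : Dg)) qs := by
      intro _
      simp
    rw [a1 none]
    set st0 : α × (List Dg × Option Bool) :=
      (a, ((pre ++ [(q, none)]) ++ List.map (fun q => ((q, none) : Dg)) qs), r) with hst0
    set v0 := evq qs (fun u => φ a (leafOf (pre ++ [(q, none)]) ++ u)) with hv0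
    rw [e1] at h2 h3
    obtain ⟨n2, g1, g2, g3⟩ := ih (pre ++ [(q, some v0)]) none
    set v1 := evq qs (fun u => φ a (leafOf (pre ++ [(q, some v0)]) ++ u)) with hv1
    rw [e2] at g2 g3
    have hv : evq (q :: qs) (fun u => φ a (leafOf pre ++ u)) = bif q then v0 && v1 else v0 || v1 := by
      rw [evq, hv0, hv1]
      simp [leafOf]
    rw [hv]
    refine ⟨n1 + 1 + n2, ?_, ?_, ?_⟩
    · intro i hi
      by_cases hi1 : i < n1
      · exact h1 i hi1
      by_cases hi2 : i = n1
      · rw [hi2, h3]
        rfl
      · obtain ⟨j, hj⟩ : ∃ j, i = j + (n1 + 1) := ⟨i - (n1 + 1), by omega⟩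
        rw [hj, Function.iterate_add_apply, h2]
        exact g1 j (by omega)
    · rw [show n1 + 1 + n2 + 1 = (n2 + 1) + (n1 + 1) by omega, Function.iterate_add_apply, h2, g2]
      simp
    · rw [show n1 + 1 + n2 = n2 + (n1 + 1) by omega, Function.iterate_add_apply, h2, g3]

/-- The whole evaluation. -/
theorem run_all (qs : List Bool) :
    ∃ n, (∀ i < n, (qstep φ ((fun b => (qstep φ b).2)^[i]
        (a, (qs.map fun q => (q, none)), none))).1 = false) ∧
      (fun b => (qstep φ b).2)^[n + 1] (a, (qs.map fun q => (q, none)), none) =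
        (a, (qs.map fun q => (q, none)), some (evq qs (φ a))) ∧
      (qstep φ ((fun b => (qstep φ b).2)^[n] (a, (qs.map fun q => (q, none)), none))).1 = true := by
  obtain ⟨n, h1, h2, h3⟩ := run_block φ a qs [] none
  exact ⟨n, h1, h2, h3⟩

theorem iter_fst (n : ℕ) (x : α × (List Dg × Option Bool)) :
    ((fun b => (qstep φ b).2)^[n] x).1 = x.1 ∧
      ((fun b => (qstep φ b).2)^[n] x).2.1.length = x.2.1.length := by
  induction n generalizing x with
  | zero => exact ⟨rfl, rfl⟩
  | succ n ih =>
    rw [Function.iterate_succ_apply]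
    obtain ⟨h1, h2⟩ := ih (qstep φ x).2
    exact ⟨h1, h2.trans (inc_length _ _)⟩

end Correct

section Poly

variable {α : Type} [TEnc α]

theorem sz_dg_le (d : Dg) : sz d ≤ 9 := by
  obtain ⟨q, o⟩ := d
  have := sz_bool_le q
  cases o with
  | none => simp; omega
  | some v =>
    have := sz_bool_le v
    simp; omega

theorem sz_optBool_le (o : Option Bool) : sz o ≤ 5 := by
  cases o with
  | none => simp
  | some v =>
    have := sz_bool_le v
    simp; omega

theorem poly_incStep : NPC.Poly (fun p : Dg × (List Dg × Option Bool) => incStep p.1 p.2) := by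
  unfold incStep
  fun_prop

theorem poly_inc : NPC.Poly (fun p : List Dg × Bool => inc p.1 p.2) := by
  unfold inc
  refine NPC.Poly.foldr (l := fun p : List Dg × Bool => p.1) (s := fun p => ([], some p.2))
    (F := fun _ d s => incStep d s) (by fun_prop) (by fun_prop) ?_ (10 * Polynomial.X + 10) ?_
  · exact poly_incStep.comp (f := fun p : (List Dg × Bool) × Dg × (List Dg × Option Bool) => p.2)
      (by fun_prop)
  · intro p k hk
    have h1 : ((p.1.drop k).foldr incStep ([], some p.2)) = inc (p.1.drop k) p.2 := rfl
    rw [h1]
    have h2 := inc_length (p.1.drop k) p.2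
    have h3 := sz_le_length_mul (inc (p.1.drop k) p.2).1 9 (fun d _ => sz_dg_le d)
    have h4 := sz_optBool_le (inc (p.1.drop k) p.2).2
    have h5 := length_lt_sz p.1
    have h6 : sz p = sz p.1 + sz p.2 + 1 := by
      obtain ⟨x, y⟩ := p
      exact sz_pair x y
    have h7 : sz (inc (p.1.drop k) p.2) = sz (inc (p.1.drop k) p.2).1 +
        sz (inc (p.1.drop k) p.2).2 + 1 := sz_pair _ _
    rw [List.length_drop] at h2
    simp only [Polynomial.eval_add, Polynomial.eval_mul, Polynomial.eval_X, Polynomial.eval_ofNat]
    omega

theorem poly_qstep {φ : α → List Bool → Bool}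
    (hφ : NPC.Poly (fun p : α × List Bool => φ p.1 p.2)) :
    NPC.Poly (qstep φ) := by
  have h1 : NPC.Poly (fun x : α × (List Dg × Option Bool) => leafOf x.2.1) := by
    unfold leafOf
    refine NPC.Poly.map (F := fun _ (d : Dg) => d.2.isSome) (by fun_prop) ?_
    refine (NPC.Poly.optCases (o := fun p : (α × (List Dg × Option Bool)) × Dg => p.2.2)
      (g := fun _ => false) (h := fun _ _ => true) (by fun_prop) (by fun_prop)
      (by fun_prop)).congr fun p => ?_
    cases p.2.2 <;> rfl
  have h2 : NPC.Poly (fun x : α × (List Dg × Option Bool) => φ x.1 (leafOf x.2.1)) :=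
    hφ.comp (f := fun x : α × (List Dg × Option Bool) => (x.1, leafOf x.2.1)) (by fun_prop)
  have h3 : NPC.Poly (fun x : α × (List Dg × Option Bool) =>
      inc x.2.1 (φ x.1 (leafOf x.2.1))) :=
    poly_inc.comp (f := fun x : α × (List Dg × Option Bool) => (x.2.1, φ x.1 (leafOf x.2.1)))
      (by fun_prop)
  unfold qstep
  refine NPC.Poly.pair ?_ (by fun_prop)
  refine (NPC.Poly.optCases (o := fun x : α × (List Dg × Option Bool) =>
      (inc x.2.1 (φ x.1 (leafOf x.2.1))).2)
      (g := fun _ => false) (h := fun _ _ => true) (by fun_prop) (by fun_prop)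
      (by fun_prop)).congr fun p => ?_
  cases (inc p.2.1 (φ p.1 (leafOf p.2.1))).2 <;> rfl

/-- Truth of a formula with polynomially many quantified bits and a polynomial-time matrix can be
decided in polynomial space. -/
theorem inPSPACE_of_evq {L : Set (List Bool)} {init : List Bool → α} (hinit : NPC.Poly init)
    {qs : List Bool → List Bool} (hqs : NPC.Poly qs) {φ : α → List Bool → Bool}
    (hφ : NPC.Poly (fun p : α × List Bool => φ p.1 p.2))
    (hL : ∀ x, x ∈ L ↔ evq (qs x) (φ (init x)) = true) : InPSPACE L := by
  obtain ⟨r1, hr1⟩ := hinit.sz_le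
  obtain ⟨r2, hr2⟩ := hqs.sz_le
  choose n h1 h2 h3 using fun x => run_all φ (init x) (qs x)
  have hsz : ∀ x : List Bool, sz x ≤ 4 * x.length + 1 := fun x => sz_listBool_le x
  refine inPSPACE_of_process (β := α × (List Dg × Option Bool))
    (init := fun x => (init x, ((qs x).map fun q => (q, none)), none)) ?_
    (poly_qstep hφ) (out := fun y => y.2.2.getD false) ?_
    ((r1 + 10 * r2 + 20).comp (4 * Polynomial.X + 1)) n h1 h3 ?_ ?_
  · refine NPC.Poly.pair hinit (NPC.Poly.pair ?_ (NPC.Poly.const _))
    exact NPC.Poly.map (F := fun _ q => ((q, none) : Dg)) hqs (by fun_prop)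
  · fun_prop
  · intro x i _
    obtain ⟨g1, g2⟩ := iter_fst φ i (init x, ((qs x).map fun q => ((q, none) : Dg)), none)
    set y := (fun b => (qstep φ b).2)^[i] (init x, ((qs x).map fun q => ((q, none) : Dg)), none)
      with hy
    have e1 : sz y = sz y.1 + (sz y.2.1 + sz y.2.2 + 1) + 1 := by
      obtain ⟨y1, y2, y3⟩ := y
      simp
    have e2 := sz_le_length_mul y.2.1 9 (fun d _ => sz_dg_le d)
    have e3 := sz_optBool_le y.2.2
    have e4 : y.2.1.length = (qs x).length := by rw [g2]; simp
    have e5 := length_lt_sz (qs x)
    have e6 := hr1 x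
    have e7 := hr2 x
    have e8 : r1.eval (sz x) ≤ r1.eval (4 * x.length + 1) := eval_mono r1 (hsz x)
    have e9 : r2.eval (sz x) ≤ r2.eval (4 * x.length + 1) := eval_mono r2 (hsz x)
    rw [g1] at e1
    simp only [Polynomial.eval_add, Polynomial.eval_mul, Polynomial.eval_X, Polynomial.eval_ofNat,
      Polynomial.eval_comp, Polynomial.eval_one]
    show sz y ≤ _
    simp only at e1
    omega
  · intro x
    rw [hL, h2 x]
    rfl

end Poly

end Pool.Agent.H623R2.PS
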