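import Pool.Agent.H623R2.PS.Quant

/-!
# Reachability in polynomial space (Savitch)
-/

namespace Pool.Agent.H623R2.PS

open Pool.Agent.NPC

/-! ### Quantifier blocks -/

theorem evq_exists (n : ℕ) (qs : List Bool) (φ : List Bool → Bool) :
    evq (List.replicate n false ++ qs) φ = true ↔
      ∃ M : List Bool, M.length = n ∧ evq qs (fun u => φ (M ++ u)) = true := by
  induction n generalizing φ with
  | zero =>
    constructor
    · intro h
      exact ⟨[], rfl, by simpa using h⟩
    · rintro ⟨M, hM, h⟩
      rw [List.length_eq_zero_iff] at hM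
      subst hM
      simpa using h
  | succ n ih =>
    rw [List.replicate_succ, List.cons_append, evq, cond_false, Bool.or_eq_true, ih, ih]
    constructor
    · rintro (⟨M, hM, h⟩ | ⟨M, hM, h⟩)
      · exact ⟨false :: M, by simp [hM], by simpa using h⟩
      · exact ⟨true :: M, by simp [hM], by simpa using h⟩
    · rintro ⟨M, hM, h⟩
      cases M with
      | nil => simp at hM
      | cons b M =>
        cases b with
        | false => exact Or.inl ⟨M, by simpa using hM, by simpa using h⟩
        | true => exact Or.inr ⟨M, by simpa using hM, by simpa using h⟩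

/-- The quantifiers of `k` levels. -/
def blocks (w : ℕ) : ℕ → List Bool
  | 0 => []
  | k + 1 => List.replicate w false ++ (true :: blocks w k)

/-- Reading one bit of the witnesses. -/
def fstep (w : ℕ) (s : List Bool × List Bool × List Bool) (b : Bool) :
    List Bool × List Bool × List Bool :=
  if s.2.2.length < w then (s.1, s.2.1, s.2.2 ++ [b])
  else bif b then (s.2.2, s.2.1, []) else (s.1, s.2.2, [])

theorem foldl_fstep_acc (w : ℕ) (A B acc M u : List Bool) (h : acc.length + M.length ≤ w) :
    (M ++ u).foldl (fstep w) (A, B, acc) = u.foldl (fstep w) (A, B, acc ++ M) := by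
  induction M generalizing acc with
  | nil => simp
  | cons b M ih =>
    rw [List.cons_append, List.foldl_cons]
    have e : fstep w (A, B, acc) b = (A, B, acc ++ [b]) := by
      unfold fstep
      rw [if_pos]
      simp only [List.length_cons] at h
      simp only
      omega
    rw [e, ih _ (by simp only [List.length_append, List.length_cons, List.length_nil] at h ⊢; omega)]
    simp

theorem foldl_fstep_block (w : ℕ) (A B M u : List Bool) (b : Bool) (h : M.length = w) :
    (M ++ (b :: u)).foldl (fstep w) (A, B, []) =
      u.foldl (fstep w) (bif b then (M, B, []) else (A, M, [])) := by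
  rw [foldl_fstep_acc w A B [] M (b :: u) (by simp [h]), List.foldl_cons]
  congr 1
  unfold fstep
  rw [if_neg (by simp [h])]
  simp

section Rel

variable {R : List Bool → List Bool → Bool}

/-- Reachability in at most `2 ^ k` steps, recursively. -/
def RR (R : List Bool → List Bool → Bool) (w : ℕ) : ℕ → List Bool → List Bool → Prop
  | 0, A, B => A = B ∨ R A B = true
  | k + 1, A, B => ∃ M : List Bool, M.length = w ∧ RR R w k A M ∧ RR R w k M B

theorem evq_blocks (w k : ℕ) (A B : List Bool) :
    evq (blocks w k) (fun u => decide ((u.foldl (fstep w) (A, B, [])).1 =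
        (u.foldl (fstep w) (A, B, [])).2.1) ||
      R (u.foldl (fstep w) (A, B, [])).1 (u.foldl (fstep w) (A, B, [])).2.1) = true ↔
      RR R w k A B := by
  induction k generalizing A B with
  | zero => simp [blocks, evq, RR]
  | succ k ih =>
    rw [blocks, evq_exists, RR]
    refine exists_congr fun M => and_congr_right fun hM => ?_
    rw [evq, cond_true, Bool.and_eq_true]
    have e0 : ∀ u, (M ++ (false :: u)).foldl (fstep w) (A, B, []) =
        u.foldl (fstep w) (A, M, []) := fun u => foldl_fstep_block w A B M u false hM
    have e1 : ∀ u, (M ++ (true :: u)).foldl (fstep w) (A, B, []) =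
        u.foldl (fstep w) (M, B, []) := fun u => foldl_fstep_block w A B M u true hM
    simp only [e0, e1]
    rw [ih, ih]

/-- Paths of a given length. -/
def Pth {X : Type*} (r : X → X → Prop) : ℕ → X → X → Prop
  | 0, a, b => a = b
  | n + 1, a, b => ∃ c, r a c ∧ Pth r n c b

theorem Pth.add {X : Type*} {r : X → X → Prop} {m n : ℕ} {a b c : X} (h : Pth r m a b)
    (h' : Pth r n b c) : Pth r (m + n) a c := by
  induction m generalizing a with
  | zero =>
    have : a = b := h
    subst this
    simpa using h'
  | succ m ih =>
    obtain ⟨d, h1, h2⟩ := h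
    rw [show m + 1 + n = (m + n) + 1 by omega]
    exact ⟨d, h1, ih h2⟩

theorem Pth.split {X : Type*} {r : X → X → Prop} {m n : ℕ} {a c : X} (h : Pth r (m + n) a c) :
    ∃ b, Pth r m a b ∧ Pth r n b c := by
  induction m generalizing a with
  | zero => exact ⟨a, rfl, by simpa using h⟩
  | succ m ih =>
    rw [show m + 1 + n = (m + n) + 1 by omega] at h
    obtain ⟨d, h1, h2⟩ := h
    obtain ⟨b, h3, h4⟩ := ih h2
    exact ⟨b, ⟨d, h1, h3⟩, h4⟩

theorem Pth.refl_trans {X : Type*} {r : X → X → Prop} {n : ℕ} {a b : X} (h : Pth r n a b) :
    Relation.ReflTransGen r a b := by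
  induction n generalizing a with
  | zero =>
    have : a = b := h
    subst this
    exact Relation.ReflTransGen.refl
  | succ n ih =>
    obtain ⟨c, h1, h2⟩ := h
    exact Relation.ReflTransGen.head h1 (ih h2)

theorem exists_pth {X : Type*} {r : X → X → Prop} {a b : X} (h : Relation.ReflTransGen r a b) :
    ∃ n, Pth r n a b := by
  induction h using Relation.ReflTransGen.head_induction_on with
  | refl => exact ⟨0, rfl⟩
  | head h _ ih =>
    obtain ⟨n, hn⟩ := ih
    exact ⟨n + 1, _, h, hn⟩

/-- A short path. -/
theorem exists_short {X : Type*} {r : X → X → Prop} {S : Set X} (hS : S.Finite) {a b : X}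
    (ha : a ∈ S) (hr : ∀ u v, u ∈ S → r u v → v ∈ S) (h : Relation.ReflTransGen r a b) :
    ∃ n ≤ S.ncard, Pth r n a b := by
  set D : ℕ → Set X := fun n => {v | ∃ m ≤ n, Pth r m a v} with hD
  have hmono : ∀ n, D n ⊆ D (n + 1) := fun n v ⟨m, hm, h⟩ => ⟨m, by omega, h⟩
  have hmem : ∀ m v, Pth r m a v → v ∈ S := by
    intro m
    induction m generalizing a with
    | zero =>
      intro v hv
      have : a = v := hv
      exact this ▸ ha
    | succ m ih =>
      intro v hv
      obtain ⟨c, h1, h2⟩ := hv
      have hc := hr _ _ ha h1
      clear_value D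
      clear hD hmono
      have key : ∀ (m : ℕ) (c v : X), c ∈ S → Pth r m c v → v ∈ S := by
        intro m
        induction m with
        | zero =>
          intro c v hc hv
          have : c = v := hv
          exact this ▸ hc
        | succ m ih =>
          intro c v hc hv
          obtain ⟨d, h1, h2⟩ := hv
          exact ih d v (hr _ _ hc h1) h2
      exact key m c v hc h2
  have hsub : ∀ n, D n ⊆ S := fun n v ⟨m, _, h⟩ => hmem m v h
  have hfin : ∀ n, (D n).Finite := fun n => hS.subset (hsub n)
  have hstab : ∀ n, D n = D (n + 1) → ∀ j, D (n + j) ⊆ D n := by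
    intro n hn j
    induction j with
    | zero => exact subset_rfl
    | succ j ih =>
      rintro v ⟨m, hm, h⟩
      by_cases hm' : m ≤ n + j
      · exact ih ⟨m, hm', h⟩
      · have e : m = (n + j) + 1 := by omega
        rw [e] at h
        obtain ⟨c, h1, h2⟩ := h.split
        have hc : c ∈ D n := ih ⟨n + j, le_rfl, h1⟩
        obtain ⟨m', hm', h3⟩ := hc
        rw [hn]
        exact ⟨m' + 1, by omega, h3.add h2⟩
  have hgrow : ∀ n, (∃ m ≤ n, D m = D (m + 1)) ∨ n + 1 ≤ (D n).ncard := by
    intro n
    induction n with
    | zero =>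
      right
      have : (D 0).Nonempty := ⟨a, 0, le_rfl, rfl⟩
      have := (Set.ncard_pos (hfin 0)).2 this
      omega
    | succ n ih =>
      rcases ih with ⟨m, hm, h⟩ | ih
      · exact Or.inl ⟨m, by omega, h⟩
      · by_cases he : D n = D (n + 1)
        · exact Or.inl ⟨n, by omega, he⟩
        · right
          have hss : D n ⊂ D (n + 1) := Set.ssubset_iff_subset_ne.2 ⟨hmono n, he⟩
          have := Set.ncard_lt_ncard hss (hfin _)
          omega
  obtain ⟨n, hn⟩ := exists_pth h
  have hle : (D S.ncard).ncard ≤ S.ncard := Set.ncard_le_ncard (hsub _) hS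
  rcases hgrow S.ncard with ⟨m, hm, h⟩ | h
  · have h1 : b ∈ D (m + n) := ⟨n, by omega, hn⟩
    obtain ⟨m', hm', h2⟩ := hstab m h n h1
    exact ⟨m', by omega, h2⟩
  · omega

theorem RR_iff {w : ℕ} (hR : ∀ u v, u.length = w → R u v = true → v.length = w) (k : ℕ)
    {A B : List Bool} (hA : A.length = w) :
    RR R w k A B ↔ ∃ n ≤ 2 ^ k, Pth (fun u v => R u v = true) n A B := by
  induction k generalizing A B with
  | zero =>
    rw [RR]
    constructor
    · rintro (h | h)
      · exact ⟨0, by omega, h⟩
      · exact ⟨1, by simp, B, h, rfl⟩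
    · rintro ⟨n, hn, h⟩
      have : n = 0 ∨ n = 1 := by simp at hn; omega
      rcases this with rfl | rfl
      · exact Or.inl h
      · obtain ⟨c, h1, h2⟩ := h
        have : c = B := h2
        subst this
        exact Or.inr h1
  | succ k ih =>
    rw [RR]
    constructor
    · rintro ⟨M, hM, h1, h2⟩
      rw [ih hA] at h1
      rw [ih hM] at h2
      obtain ⟨n1, hn1, p1⟩ := h1
      obtain ⟨n2, hn2, p2⟩ := h2
      exact ⟨n1 + n2, by rw [pow_succ]; omega, p1.add p2⟩
    · rintro ⟨n, hn, h⟩
      rw [pow_succ] at hn
      obtain ⟨n1, n2, e, hn1, hn2⟩ : ∃ n1 n2, n = n1 + n2 ∧ n1 ≤ 2 ^ k ∧ n2 ≤ 2 ^ k :=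
        ⟨min n (2 ^ k), n - min n (2 ^ k), by omega, by omega, by omega⟩
      rw [e] at h
      obtain ⟨M, p1, p2⟩ := h.split
      have key : ∀ (m : ℕ) (c v : List Bool), c.length = w →
          Pth (fun u v => R u v = true) m c v → v.length = w := by
        intro m
        induction m with
        | zero =>
          intro c v hc hv
          have : c = v := hv
          exact this ▸ hc
        | succ m ih =>
          intro c v hc hv
          obtain ⟨d, h1, h2⟩ := hv
          exact ih d v (hR _ _ hc h1) h2
      have hM := key n1 A M hA p1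
      exact ⟨M, hM, (ih hA).2 ⟨n1, hn1, p1⟩, (ih hM).2 ⟨n2, hn2, p2⟩⟩

theorem ncard_length (w : ℕ) : {l : List Bool | l.length = w}.ncard = 2 ^ w := by
  have h : {l : List Bool | l.length = w}.ncard = Nat.card {l : List Bool // l.length = w} := rfl
  rw [h]
  have h2 : Nat.card (List.Vector Bool w) = 2 ^ w := by
    rw [Nat.card_eq_fintype_card, card_vector, Fintype.card_bool]
  exact h2

theorem RR_reach {w : ℕ} (hR : ∀ u v, u.length = w → R u v = true → v.length = w)
    {A B : List Bool} (hA : A.length = w) :
    RR R w w A B ↔ Relation.ReflTransGen (fun u v => R u v = true) A B := by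
  rw [RR_iff hR w hA]
  constructor
  · rintro ⟨n, _, h⟩
    exact h.refl_trans
  · intro h
    have h1 := exists_short (S := {l : List Bool | l.length = w})
      (List.finite_length_eq Bool w) (a := A) (b := B) hA (fun u v hu huv => hR u v hu huv) h
    rwa [ncard_length] at h1

end Rel

theorem evq_and (g : Bool) (qs : List Bool) (φ : List Bool → Bool) :
    evq qs (fun u => g && φ u) = (g && evq qs φ) := by
  induction qs generalizing φ with
  | nil => rfl
  | cons q qs ih =>
    rw [evq, evq, ih, ih]
    cases g <;> cases q <;> simp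

section Poly

variable {α : Type} [TEnc α]

theorem poly_replicate {β : Type} [TEnc β] {w : α → ℕ} (hw : UPoly w) (b : β) :
    NPC.Poly (fun a => List.replicate (w a) b) := by
  refine (NPC.Poly.map (l := fun a => List.range (w a)) (F := fun _ _ => b) hw.range
    (by fun_prop)).congr fun a => ?_
  rw [List.map_const', List.length_range]

theorem poly_blocks {w : α → ℕ} (hw : UPoly w) : NPC.Poly (fun a => blocks (w a) (w a)) := by
  have h1 : NPC.Poly (fun a => List.replicate (w a) false ++ [true]) := by
    have := poly_replicate hw false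
    fun_prop
  have h2 : NPC.Poly (fun a => (List.range (w a)).flatMap
      (fun _ => List.replicate (w a) false ++ [true])) := by
    refine NPC.Poly.flatMap (F := fun a _ => List.replicate (w a) false ++ [true]) hw.range ?_
    exact h1.comp (f := fun p : α × ℕ => p.1) (by fun_prop)
  refine h2.congr fun a => ?_
  have key : ∀ (k : ℕ) (v : ℕ), (List.range k).flatMap
      (fun _ => List.replicate v false ++ [true]) = blocks v k := by
    intro k v
    have : ∀ l : List ℕ, l.flatMap (fun _ => List.replicate v false ++ [true]) =
        blocks v l.length := by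
      intro l
      induction l with
      | nil => rfl
      | cons i l ih => rw [List.flatMap_cons, ih, List.length_cons, blocks]; simp
    rw [this, List.length_range]
  exact key _ _

/-- The final pair after reading all witnesses. -/
def fin3 (w : ℕ) (A B u : List Bool) : List Bool × List Bool × List Bool :=
  u.foldl (fstep w) (A, B, [])

theorem fstep_len (w m : ℕ) (u : List Bool) (s : List Bool × List Bool × List Bool)
    (h1 : s.1.length ≤ m) (h2 : s.2.1.length ≤ m) (h3 : s.2.2.length + u.length ≤ m) :
    (u.foldl (fstep w) s).1.length ≤ m ∧ (u.foldl (fstep w) s).2.1.length ≤ m ∧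
      (u.foldl (fstep w) s).2.2.length ≤ m := by
  induction u generalizing s with
  | nil => exact ⟨h1, h2, by simpa using h3⟩
  | cons b u ih =>
    rw [List.foldl_cons]
    rw [List.length_cons] at h3
    apply ih
    · unfold fstep
      split_ifs
      · exact h1
      · cases b
        · exact h1
        · simp only [cond_true]; omega
    · unfold fstep
      split_ifs
      · exact h2
      · cases b
        · simp only [cond_false]; omega
        · exact h2
    · unfold fstep
      split_ifs
      · simp only [List.length_append, List.length_cons, List.length_nil]; omega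
      · cases b <;> simp <;> omega

theorem poly_fstep : NPC.Poly (fun p : ℕ × (List Bool × List Bool × List Bool) × Bool =>
    fstep p.1 p.2.1 p.2.2) := by
  unfold fstep
  fun_prop

theorem poly_fin3 : NPC.Poly (fun p : ℕ × List Bool × List Bool × List Bool =>
    fin3 p.1 p.2.1 p.2.2.1 p.2.2.2) := by
  unfold fin3
  refine NPC.Poly.foldl (l := fun p : ℕ × List Bool × List Bool × List Bool => p.2.2.2)
    (s := fun p => (p.2.1, p.2.2.1, [])) (F := fun p s b => fstep p.1 s b) (by fun_prop)
    (by fun_prop) ?_ (20 * Polynomial.X + 20) ?_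
  · exact poly_fstep.comp
      (f := fun p : (ℕ × List Bool × List Bool × List Bool) ×
        (List Bool × List Bool × List Bool) × Bool => (p.1.1, p.2.1, p.2.2)) (by fun_prop)
  · rintro ⟨w, A, B, u⟩ k hk
    simp only
    obtain ⟨h1, h2, h3⟩ := fstep_len w (A.length + B.length + u.length) (u.take k) (A, B, [])
      (by simp only; omega) (by simp only; omega)
      (by simp only [List.length_nil, List.length_take]; omega)
    set y := (u.take k).foldl (fstep w) (A, B, []) with hy
    have e1 : sz y = sz y.1 + (sz y.2.1 + sz y.2.2 + 1) + 1 := by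
      obtain ⟨y1, y2, y3⟩ := y
      simp
    have e2 := sz_listBool_le y.1
    have e3 := sz_listBool_le y.2.1
    have e4 := sz_listBool_le y.2.2
    have e5 := sz_listBool_ge A
    have e6 := sz_listBool_ge B
    have e7 := sz_listBool_ge u
    simp only [Polynomial.eval_add, Polynomial.eval_mul, Polynomial.eval_X, Polynomial.eval_ofNat,
      sz_pair]
    omega

/-- Reachability between bit strings of polynomial length, for a polynomial-time relation, can be
decided in polynomial space. -/
theorem inPSPACE_of_reach {L : Set (List Bool)} {init : List Bool → α} (hinit : NPC.Poly init)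
    {w : α → ℕ} (hw : UPoly w) {good : α → Bool} (hgood : NPC.Poly good)
    {R : α → List Bool → List Bool → Bool}
    (hR : NPC.Poly (fun p : α × List Bool × List Bool => R p.1 p.2.1 p.2.2))
    {s t : α → List Bool} (hs : NPC.Poly s) (ht : NPC.Poly t)
    (hsl : ∀ a, (s a).length = w a)
    (hRl : ∀ a u v, u.length = w a → R a u v = true → v.length = w a)
    (hL : ∀ x, x ∈ L ↔ good (init x) = true ∧
      Relation.ReflTransGen (fun u v => R (init x) u v = true) (s (init x)) (t (init x))) :
    InPSPACE L := by
  refine inPSPACE_of_evq hinit (qs := fun x => blocks (w (init x)) (w (init x)))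
    (poly_blocks (hw.comp hinit))
    (φ := fun a u => good a && (decide ((fin3 (w a) (s a) (t a) u).1 =
      (fin3 (w a) (s a) (t a) u).2.1) ||
      R a (fin3 (w a) (s a) (t a) u).1 (fin3 (w a) (s a) (t a) u).2.1)) ?_ ?_
  · have hwp := hw.toPoly
    have h1 : NPC.Poly (fun p : α × List Bool => fin3 (w p.1) (s p.1) (t p.1) p.2) :=
      poly_fin3.comp (f := fun p : α × List Bool => (w p.1, s p.1, t p.1, p.2)) (by fun_prop)
    have h2 : NPC.Poly (fun p : α × List Bool => R p.1 (fin3 (w p.1) (s p.1) (t p.1) p.2).1
        (fin3 (w p.1) (s p.1) (t p.1) p.2).2.1) :=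
      hR.comp (f := fun p : α × List Bool => (p.1, (fin3 (w p.1) (s p.1) (t p.1) p.2).1,
        (fin3 (w p.1) (s p.1) (t p.1) p.2).2.1)) (by fun_prop)
    fun_prop
  · intro x
    rw [hL, evq_and, Bool.and_eq_true]
    refine and_congr_right fun _ => ?_
    rw [← RR_reach (hRl (init x)) (hsl (init x))]
    exact (evq_blocks (R := R (init x)) (w (init x)) (w (init x)) (s (init x)) (t (init x))).symm

end Poly

end Pool.Agent.H623R2.PS
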