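import Pool.Agent.H623R2.PS.Savitch

/-!
# REACHABLE SUBSET_k is in `PSPACE`
-/

namespace Pool.Agent.H623R2.PS

open Pool.Agent.NPC

/-- Codes of instances. -/
abbrev Cd := ℕ × ℕ × List (List ℕ) × List Bool

/-- The image of a set of states (a bit vector) under a letter (a row of the table). -/
def imgRow (u : List Bool) (row : List ℕ) : List Bool :=
  (List.range u.length).map fun j => (u.zip row).any fun p => p.1 && decide (p.2 = j)

/-- The code is the code of an instance with a target set of `k` states. -/
def validC (k : ℕ) (c : Cd) : Bool :=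
  decide (c.1 = c.2.2.2.length) && (decide (c.2.1 = c.2.2.1.length) &&
    ((c.2.2.1.all fun row => decide (row.length = c.2.2.2.length) &&
      row.all fun q => decide (q < c.2.2.2.length)) &&
      decide ((c.2.2.2.filter fun b => b).length = k)))

/-- One step in the automaton of subsets. -/
def stepC (c : Cd) (u v : List Bool) : Bool := c.2.2.1.any fun row => decide (v = imgRow u row)

/-- Characteristic vectors. -/
def chv {n : ℕ} (A : Finset (Fin n)) : List Bool := (List.finRange n).map fun q => decide (q ∈ A)

theorem chv_length {n : ℕ} (A : Finset (Fin n)) : (chv A).length = n := by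
  unfold chv
  rw [List.length_map, List.length_finRange]

theorem chv_inj {n : ℕ} {A B : Finset (Fin n)} (h : chv A = chv B) : A = B := by
  ext q
  have h3 := (List.map_inj_left.1 h) q (List.mem_finRange q)
  simpa using h3

theorem exists_chv (l : List Bool) : ∃ A : Finset (Fin l.length), chv A = l := by
  refine ⟨Finset.univ.filter fun i => l[i] = true, ?_⟩
  unfold chv
  apply List.ext_getElem
  · simp
  · intro i h1 h2
    simp

theorem chv_card {n : ℕ} (A : Finset (Fin n)) : ((chv A).filter fun b => b).length = A.card := by
  unfold chv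
  rw [List.filter_map, List.length_map]
  have h1 : (List.finRange n).filter ((fun b => b) ∘ fun q => decide (q ∈ A)) =
      (List.finRange n).filter (fun q => decide (q ∈ A)) := rfl
  rw [h1]
  have h2 : A = Finset.univ.filter (fun q => q ∈ A) := by simp
  have h3 : ((List.finRange n).filter (fun q => decide (q ∈ A))).toFinset = A := by
    ext q
    simp
  have h4 : ((List.finRange n).filter (fun q => decide (q ∈ A))).Nodup :=
    (List.nodup_finRange n).filter _
  rw [← List.toFinset_card_of_nodup h4, h3]

theorem imgRow_chv {n : ℕ} (A : Finset (Fin n)) (f : Fin n → Fin n) :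
    imgRow (chv A) ((List.finRange n).map fun q => (f q).val) = chv (A.image f) := by
  unfold imgRow
  rw [chv_length]
  have h1 : (chv A).zip ((List.finRange n).map fun q => (f q).val) =
      (List.finRange n).map fun q => (decide (q ∈ A), (f q).val) := by
    unfold chv
    rw [List.zip_map']
  rw [h1]
  apply List.ext_getElem
  · rw [List.length_map, List.length_range, chv_length]
  · intro i h2 h3
    rw [chv_length] at h3
    unfold chv
    simp only [List.getElem_map, List.getElem_range, List.getElem_finRange, List.any_map]
    rw [Bool.eq_iff_iff, List.any_eq_true, decide_eq_true_eq, Finset.mem_image]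
    constructor
    · rintro ⟨q, _, hq⟩
      simp only [Function.comp, Bool.and_eq_true, decide_eq_true_eq] at hq
      exact ⟨q, hq.1, Fin.ext (by simpa using hq.2)⟩
    · rintro ⟨q, hq, hq'⟩
      refine ⟨q, List.mem_finRange q, ?_⟩
      simp only [Function.comp, Bool.and_eq_true, decide_eq_true_eq]
      exact ⟨hq, by rw [hq']; simp⟩

theorem Inst.code_fst (I : Inst) : I.code = (I.n, I.m,
    ((List.finRange I.m).map fun a => (List.finRange I.n).map fun q => (I.δ q a).val), chv I.P) :=
  rfl

theorem Inst.image_nil (I : Inst) : I.image [] = Finset.univ := by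
  unfold Inst.image
  ext q
  simp

theorem Inst.image_append (I : Inst) (w : List (Fin I.m)) (a : Fin I.m) :
    I.image (w ++ [a]) = (I.image w).image fun q => I.δ q a := by
  unfold Inst.image
  rw [Finset.image_image]
  congr 1
  funext q
  simp [List.foldl_append]

theorem stepC_iff (I : Inst) (A : Finset (Fin I.n)) (v : List Bool) :
    stepC I.code (chv A) v = true ↔ ∃ a : Fin I.m, v = chv (A.image fun q => I.δ q a) := by
  unfold stepC
  rw [Inst.code_fst, List.any_eq_true]
  constructor
  · rintro ⟨row, hrow, h⟩
    rw [List.mem_map] at hrow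
    obtain ⟨a, _, rfl⟩ := hrow
    rw [decide_eq_true_eq, imgRow_chv A (fun q => I.δ q a)] at h
    exact ⟨a, h⟩
  · rintro ⟨a, h⟩
    refine ⟨(List.finRange I.n).map fun q => (I.δ q a).val, ?_, ?_⟩
    · exact List.mem_map.2 ⟨a, List.mem_finRange a, rfl⟩
    · rw [decide_eq_true_eq, imgRow_chv A (fun q => I.δ q a)]
      exact h

theorem reach_iff (I : Inst) :
    Relation.ReflTransGen (fun u v => stepC I.code u v = true)
      (chv (Finset.univ : Finset (Fin I.n))) (chv I.P) ↔ ∃ w, I.image w = I.P := by
  constructor
  · intro h
    have key : ∀ v, Relation.ReflTransGen (fun u v => stepC I.code u v = true)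
        (chv (Finset.univ : Finset (Fin I.n))) v → ∃ w, v = chv (I.image w) := by
      intro v hv
      induction hv with
      | refl => exact ⟨[], by rw [Inst.image_nil]⟩
      | @tail u v _ huv ih =>
        obtain ⟨w, rfl⟩ := ih
        obtain ⟨a, ha⟩ := (stepC_iff I _ _).1 huv
        exact ⟨w ++ [a], by rw [ha, Inst.image_append]⟩
    obtain ⟨w, hw⟩ := key _ h
    exact ⟨w, (chv_inj hw).symm⟩
  · rintro ⟨w, hw⟩
    rw [← hw]
    clear hw
    induction w using List.reverseRecOn with
    | nil => rw [Inst.image_nil]
    | append_singleton w a ih =>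
      refine Relation.ReflTransGen.tail ih ?_
      rw [stepC_iff]
      exact ⟨a, by rw [Inst.image_append]⟩

theorem validC_iff (k : ℕ) (c : Cd) : validC k c = true ↔ ∃ I : Inst, I.code = c ∧ I.P.card = k := by
  constructor
  · intro h
    obtain ⟨n, m, tb, pv⟩ := c
    simp only [validC, Bool.and_eq_true, decide_eq_true_eq, List.all_eq_true] at h
    obtain ⟨rfl, rfl, h3, h4⟩ := h
    obtain ⟨A, hA⟩ := exists_chv pv
    have hrow : ∀ a : Fin tb.length, tb[a].length = pv.length := fun a =>
      (h3 _ (List.getElem_mem a.isLt)).1
    have hval : ∀ (a : Fin tb.length) (q : Fin pv.length),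
        (tb[a][q.val]'(by rw [hrow a]; exact q.isLt)) < pv.length := fun a q =>
      (h3 _ (List.getElem_mem a.isLt)).2 _ (List.getElem_mem _)
    refine ⟨⟨pv.length, tb.length, fun q a => ⟨_, hval a q⟩, A⟩, ?_, ?_⟩
    · rw [Inst.code_fst]
      simp only [Prod.mk.injEq, true_and]
      refine ⟨?_, hA⟩
      apply List.ext_getElem
      · simp
      · intro i h5 h6
        simp only [List.getElem_map, List.getElem_finRange]
        apply List.ext_getElem
        · simp only [List.length_map, List.length_finRange]
          exact (hrow ⟨i, h6⟩).symm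
        · intro j h7 h8
          simp
    · rw [← chv_card, hA]
      exact h4
  · rintro ⟨I, rfl, h⟩
    rw [Inst.code_fst]
    simp only [validC, Bool.and_eq_true, decide_eq_true_eq, List.all_eq_true]
    refine ⟨(chv_length _).symm, by simp, ?_, by rw [chv_card, h]⟩
    intro row hrow
    rw [List.mem_map] at hrow
    obtain ⟨a, _, rfl⟩ := hrow
    refine ⟨by simp [chv_length], ?_⟩
    intro q hq
    rw [List.mem_map] at hq
    obtain ⟨q', _, rfl⟩ := hq
    rw [chv_length]
    exact (I.δ q' a).isLt

theorem poly_imgRow : NPC.Poly (fun p : List Bool × List ℕ => imgRow p.1 p.2) := by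
  unfold imgRow
  refine NPC.Poly.map (l := fun p : List Bool × List ℕ => List.range p.1.length)
    (F := fun p j => (p.1.zip p.2).any fun q => q.1 && decide (q.2 = j)) ?_ (by fun_prop)
  exact (UPoly.length (by fun_prop)).range

/-- REACHABLE SUBSET_k is in `PSPACE`. -/
theorem member (k : ℕ) : InPSPACE (lang (ReachableSubset k)) := by
  have hc : ∀ (f : Option Cd → Cd), f = (fun o => o.getD (0, 0, [], [])) → NPC.Poly f := by
    rintro f rfl
    fun_prop
  refine inPSPACE_of_reach (α := Option Cd) (init := unbits Cd) poly_unbits
    (w := fun o => (o.getD (0, 0, [], [])).2.2.2.length) ?_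
    (good := fun o => o.elim false (validC k)) ?_
    (R := fun o u v => stepC (o.getD (0, 0, [], [])) u v && decide (v.length = u.length)) ?_
    (s := fun o => (o.getD (0, 0, [], [])).2.2.2.map fun _ => true)
    (t := fun o => (o.getD (0, 0, [], [])).2.2.2) ?_ ?_ ?_ ?_ ?_
  · exact UPoly.length (by fun_prop)
  · unfold validC
    fun_prop
  · have h1 : NPC.Poly (fun p : (Option Cd × List Bool × List Bool) × List ℕ =>
        imgRow p.1.2.1 p.2) :=
      poly_imgRow.comp (f := fun p : (Option Cd × List Bool × List Bool) × List ℕ =>
        (p.1.2.1, p.2)) (by fun_prop)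
    unfold stepC
    fun_prop
  · fun_prop
  · fun_prop
  · intro o
    simp
  · intro o u v hu h
    rw [Bool.and_eq_true, decide_eq_true_eq] at h
    rw [h.2, hu]
  · intro x
    have hlang : x ∈ lang (ReachableSubset k) ↔ ∃ I : Inst, bits I.code = x ∧ ReachableSubset k I :=
      Iff.rfl
    rw [hlang]
    cases hx : unbits Cd x with
    | none =>
      constructor
      · rintro ⟨I, hI, _⟩
        rw [← hI, unbits_bits] at hx
        cases hx
      · rintro ⟨h, _⟩
        simp at h
    | some c =>
      have hxc := bits_of_unbits hx
      simp only [Option.elim_some, Option.getD_some]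
      have hstep : ∀ u v, (stepC c u v && decide (v.length = u.length)) = true ↔
          stepC c u v = true := by
        intro u v
        rw [Bool.and_eq_true, decide_eq_true_eq]
        refine ⟨fun h => h.1, fun h => ⟨h, ?_⟩⟩
        unfold stepC at h
        rw [List.any_eq_true] at h
        obtain ⟨row, _, h⟩ := h
        rw [decide_eq_true_eq] at h
        rw [h]
        simp [imgRow]
      simp only [hstep]
      have huniv : ∀ I : Inst, I.code = c →
          c.2.2.2.map (fun _ => true) = chv (Finset.univ : Finset (Fin I.n)) := by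
        rintro I rfl
        rw [Inst.code_fst]
        simp [chv]
      constructor
      · rintro ⟨I, hI, hk, hw⟩
        have hIc : I.code = c := bits_injective (hI.trans hxc.symm)
        refine ⟨(validC_iff k c).2 ⟨I, hIc, hk⟩, ?_⟩
        rw [huniv I hIc, ← hIc]
        exact (reach_iff I).2 hw
      · rintro ⟨hv, hr⟩
        obtain ⟨I, hIc, hk⟩ := (validC_iff k c).1 hv
        refine ⟨I, by rw [hIc]; exact hxc, hk, ?_⟩
        rw [huniv I hIc, ← hIc] at hr
        exact (reach_iff I).1 hr

end Pool.Agent.H623R2.PS
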