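import Pool.Agent.NPC.Num
import Pool.Agent.H623R2.PS.Defs

/-!
# Rule systems (systems of tokens), and their reduction to REACHABLE SUBSET_k
-/

namespace Pool.Agent.H623R2.PS

open Pool.Agent.NPC

/-- A rule: a list of triples (token, required old value, new value). -/
abbrev Rule := List (ℕ × ℕ × ℕ)

/-- A rule system: a bound `V` on the values, the initial values of the tokens, the rules, and the
required final values. The value `V` marks a dead token. -/
abbrev RS := ℕ × List ℕ × List Rule × List (ℕ × ℕ)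

/-- The action of a rule on the value `v` of the token `t`. -/
def tok (V : ℕ) (R : Rule) (t v : ℕ) : ℕ :=
  if v = V then V else
    match (R.filter fun y => decide (y.1 = t)).head? with
    | none => v
    | some y => if v = y.2.1 then y.2.2 else V

/-- The final test for the value `v` of the token `t`. -/
def okf (V : ℕ) (F : List (ℕ × ℕ)) (t v : ℕ) : Bool :=
  decide (v ≠ V) && match (F.filter fun y => decide (y.1 = t)).head? with
    | none => true
    | some y => decide (v = y.2)

/-- Solvability of a rule system. -/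
def RSyes (S : RS) : Prop :=
  ∃ w : List Rule, (∀ R ∈ w, R ∈ S.2.2.1) ∧
    ∀ t < S.2.1.length, okf S.1 S.2.2.2 t (w.foldl (fun v R => tok S.1 R t v) (S.2.1.getD t 0)) = true

/-- The transition function of the automaton of a rule system: states `0 = p`, `1 = q`, `2 = x`,
`3 = y`, `4 = dead`, `5, ..., k + 2` extra states, and `k + 3 + (t * (V + 1) + v)` for the token `t`
with value `v`; letters `0` (reset), `1` (exit) and `2 + i` for the `i`-th rule. -/
def dl (k : ℕ) (S : RS) (s a : ℕ) : ℕ :=
  if s < k + 3 then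
    if a = 0 then
      if s = 0 ∨ s = 1 ∨ s = 4 then 3 else s
    else if a = 1 then
      if s = 2 then 0 else if s = 3 then 1 else s
    else s
  else
    if a = 0 then
      k + 3 + (((s - (k + 3)) / (S.1 + 1)) * (S.1 + 1) +
        min (S.2.1.getD ((s - (k + 3)) / (S.1 + 1)) 0) S.1)
    else if a = 1 then
      if okf S.1 S.2.2.2 ((s - (k + 3)) / (S.1 + 1)) ((s - (k + 3)) % (S.1 + 1)) = true
        then 1 else 4
    else
      k + 3 + (((s - (k + 3)) / (S.1 + 1)) * (S.1 + 1) +
        min (tok S.1 (S.2.2.1.getD (a - 2) []) ((s - (k + 3)) / (S.1 + 1))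
          ((s - (k + 3)) % (S.1 + 1))) S.1)

/-- The number of states. -/
def nst (k : ℕ) (S : RS) : ℕ := k + 3 + S.2.1.length * (S.1 + 1)

theorem nst_pos (k : ℕ) (S : RS) : 0 < nst k S := by unfold nst; omega

/-- The instance of the subset reachability problem. -/
def toInst (k : ℕ) (S : RS) : Inst where
  n := nst k S
  m := 2 + S.2.2.1.length
  δ := fun q a => ⟨if dl k S q.val a.val < nst k S then dl k S q.val a.val else 0, by
    split_ifs with h
    · exact h
    · exact nst_pos k S⟩
  P := Finset.univ.filter fun q => q.val < k + 3 ∧ ¬ (q.val = 2 ∨ q.val = 3 ∨ q.val = 4)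

/-- The state of the token `t` with value `v`. -/
def stt (k : ℕ) (S : RS) (t v : ℕ) : ℕ := k + 3 + (t * (S.1 + 1) + v)

theorem stt_lt {k : ℕ} {S : RS} {t v : ℕ} (ht : t < S.2.1.length) (hv : v ≤ S.1) :
    stt k S t v < nst k S := by
  unfold stt nst
  have : (t + 1) * (S.1 + 1) ≤ S.2.1.length * (S.1 + 1) := Nat.mul_le_mul_right _ ht
  have : (t + 1) * (S.1 + 1) = t * (S.1 + 1) + (S.1 + 1) := by ring
  omega

theorem exists_stt {k : ℕ} {S : RS} {s : ℕ} (h : s < nst k S) (h' : ¬ s < k + 3) :
    ∃ t v, t < S.2.1.length ∧ v ≤ S.1 ∧ s = stt k S t v := by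
  refine ⟨(s - (k + 3)) / (S.1 + 1), (s - (k + 3)) % (S.1 + 1), ?_, ?_, ?_⟩
  · unfold nst at h
    rw [Nat.div_lt_iff_lt_mul (by omega)]
    omega
  · have := Nat.mod_lt (s - (k + 3)) (show 0 < S.1 + 1 by omega)
    omega
  · unfold stt
    have := Nat.div_add_mod (s - (k + 3)) (S.1 + 1)
    have e : (s - (k + 3)) / (S.1 + 1) * (S.1 + 1) = (S.1 + 1) * ((s - (k + 3)) / (S.1 + 1)) :=
      Nat.mul_comm _ _
    omega

theorem stt_div {k : ℕ} {S : RS} {t v : ℕ} (hv : v ≤ S.1) :
    (stt k S t v - (k + 3)) / (S.1 + 1) = t := by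
  unfold stt
  rw [Nat.add_sub_cancel_left, Nat.add_comm, Nat.add_mul_div_right _ _ (by omega),
    Nat.div_eq_of_lt (by omega), Nat.zero_add]

theorem stt_mod {k : ℕ} {S : RS} {t v : ℕ} (hv : v ≤ S.1) :
    (stt k S t v - (k + 3)) % (S.1 + 1) = v := by
  unfold stt
  rw [Nat.add_sub_cancel_left, Nat.add_comm, Nat.add_mul_mod_self_right,
    Nat.mod_eq_of_lt (by omega)]

theorem stt_not_lt {k : ℕ} {S : RS} {t v : ℕ} : ¬ stt k S t v < k + 3 := by
  unfold stt; omega

/-! The transition function on the different states and letters. -/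

theorem dl_reset {k : ℕ} {S : RS} {t v : ℕ} (hv : v ≤ S.1) :
    dl k S (stt k S t v) 0 = stt k S t (min (S.2.1.getD t 0) S.1) := by
  unfold dl
  rw [if_neg stt_not_lt, if_pos rfl, stt_div hv]
  rfl

theorem dl_exit {k : ℕ} {S : RS} {t v : ℕ} (hv : v ≤ S.1) :
    dl k S (stt k S t v) 1 = if okf S.1 S.2.2.2 t v = true then 1 else 4 := by
  unfold dl
  rw [if_neg stt_not_lt, if_neg (by omega), if_pos rfl, stt_div hv, stt_mod hv]

theorem dl_rule {k : ℕ} {S : RS} {t v i : ℕ} (hv : v ≤ S.1) :
    dl k S (stt k S t v) (2 + i) =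
      stt k S t (min (tok S.1 (S.2.2.1.getD i []) t v) S.1) := by
  unfold dl
  rw [if_neg stt_not_lt, if_neg (by omega), if_neg (by omega), stt_div hv, stt_mod hv,
    Nat.add_sub_cancel_left]
  rfl

theorem dl_lt {k : ℕ} (hk : 2 ≤ k) {S : RS} {s a : ℕ} (hs : s < nst k S) :
    dl k S s a < nst k S := by
  by_cases h : s < k + 3
  · have h2 : k + 3 ≤ nst k S := by unfold nst; omega
    unfold dl
    rw [if_pos h]
    split_ifs <;> omega
  · obtain ⟨t, v, ht, hv, rfl⟩ := exists_stt hs h
    rcases a with _ | _ | a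
    · rw [dl_reset hv]
      exact stt_lt ht (min_le_right _ _)
    · rw [zero_add, dl_exit hv]
      unfold nst
      split_ifs <;> omega
    · rw [show a + 1 + 1 = 2 + a by omega, dl_rule hv]
      exact stt_lt ht (min_le_right _ _)

/-- Running the automaton on numbers. -/
def runN (k : ℕ) (S : RS) (w : List ℕ) (s : ℕ) : ℕ := w.foldl (dl k S) s

theorem runN_lt {k : ℕ} (hk : 2 ≤ k) {S : RS} (w : List ℕ) {s : ℕ} (hs : s < nst k S) :
    runN k S w s < nst k S := by
  induction w generalizing s with
  | nil => exact hs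
  | cons a w ih => exact ih (dl_lt hk hs)

theorem runN_append (k : ℕ) (S : RS) (u v : List ℕ) (s : ℕ) :
    runN k S (u ++ v) s = runN k S v (runN k S u s) := List.foldl_append ..

theorem foldl_toInst {k : ℕ} (hk : 2 ≤ k) (S : RS) (w : List (Fin (toInst k S).m))
    (q : Fin (toInst k S).n) :
    (w.foldl (toInst k S).δ q).val = runN k S (w.map Fin.val) q.val := by
  induction w generalizing q with
  | nil => rfl
  | cons a w ih =>
    rw [List.foldl_cons, ih]
    have : ((toInst k S).δ q a).val = dl k S q.val a.val := by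
      show (if dl k S q.val a.val < nst k S then dl k S q.val a.val else 0) = _
      rw [if_pos (dl_lt hk q.2)]
    rw [this]
    rfl

/-- The instance is a yes-instance iff some word with letters `< 2 + #rules` maps all states onto
the target. -/
theorem reachable_iff {k : ℕ} (hk : 2 ≤ k) (S : RS) :
    ReachableSubset k (toInst k S) ↔ ∃ w : List ℕ, (∀ a ∈ w, a < 2 + S.2.2.1.length) ∧
      (∀ s < nst k S, runN k S w s < k + 3 ∧ ¬ (runN k S w s = 2 ∨ runN k S w s = 3 ∨
        runN k S w s = 4)) ∧
      ∀ q, q < k + 3 ∧ ¬ (q = 2 ∨ q = 3 ∨ q = 4) → ∃ s < nst k S, runN k S w s = q := by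
  have hle : k + 3 ≤ nst k S := by unfold nst; omega
  have hcard : (toInst k S).P.card = k := by
    have h1 : (toInst k S).P = ((Finset.range (k + 3)).filter fun q => ¬ (q = 2 ∨ q = 3 ∨ q = 4)).attachFin
        (fun q hq => by
          have := Finset.mem_range.1 (Finset.mem_filter.1 hq).1
          exact lt_of_lt_of_le this hle) := by
      ext q
      refine Iff.trans Finset.mem_filter ?_
      refine Iff.trans ?_ (Finset.mem_attachFin _).symm
      rw [Finset.mem_filter, Finset.mem_range]
      exact ⟨fun h => h.2, fun h => ⟨Finset.mem_univ _, h⟩⟩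
    rw [h1, Finset.card_attachFin]
    have h2 : (Finset.range (k + 3)).filter (fun q => ¬ (q = 2 ∨ q = 3 ∨ q = 4)) =
        Finset.range (k + 3) \ {2, 3, 4} := by
      ext q
      simp
    rw [h2, Finset.card_sdiff_of_subset]
    · simp
    · intro q hq
      simp only [Finset.mem_insert, Finset.mem_singleton] at hq
      simp only [Finset.mem_range]
      omega
  unfold ReachableSubset
  rw [and_iff_right hcard]
  constructor
  · rintro ⟨w, hw⟩
    refine ⟨w.map Fin.val, ?_, ?_, ?_⟩
    · intro a ha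
      obtain ⟨b, -, rfl⟩ := List.mem_map.1 ha
      exact b.2
    · intro s hs
      have h1 : w.foldl (toInst k S).δ ⟨s, hs⟩ ∈ (toInst k S).P := by
        rw [← hw]
        exact Finset.mem_image_of_mem _ (Finset.mem_univ _)
      have h2 := (Finset.mem_filter.1 h1).2
      rwa [foldl_toInst hk] at h2
    · intro q hq
      have h1 : (⟨q, lt_of_lt_of_le hq.1 hle⟩ : Fin (toInst k S).n) ∈ (toInst k S).P :=
        Finset.mem_filter.2 ⟨Finset.mem_univ _, hq⟩
      rw [← hw] at h1
      obtain ⟨s, -, hs⟩ := Finset.mem_image.1 h1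
      refine ⟨s.val, s.2, ?_⟩
      rw [← foldl_toInst hk, hs]
  · rintro ⟨w, hw1, hw2, hw3⟩
    obtain ⟨w', rfl⟩ : ∃ w' : List (Fin (toInst k S).m), w = w'.map Fin.val := by
      refine ⟨w.attach.map fun a => ⟨a.1, hw1 a.1 a.2⟩, ?_⟩
      simp
    refine ⟨w', ?_⟩
    ext q
    rw [Inst.image, Finset.mem_image]
    constructor
    · rintro ⟨s, -, rfl⟩
      refine Finset.mem_filter.2 ⟨Finset.mem_univ _, ?_⟩
      rw [foldl_toInst hk]
      exact hw2 s.val s.2
    · intro hq
      obtain ⟨s, hs, hs'⟩ := hw3 q.val (Finset.mem_filter.1 hq).2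
      refine ⟨⟨s, hs⟩, Finset.mem_univ _, Fin.ext ?_⟩
      rw [foldl_toInst hk]
      exact hs'

/-- Running the rules on a token. -/
def runT (S : RS) (w : List ℕ) (t v : ℕ) : ℕ :=
  w.foldl (fun v i => tok S.1 (S.2.2.1.getD i []) t v) v

/-- Well-formed rule systems: all values are below `V`. -/
def RSwf (S : RS) : Prop :=
  (∀ v ∈ S.2.1, v < S.1) ∧ ∀ R ∈ S.2.2.1, ∀ y ∈ R, y.2.2 ≤ S.1

theorem tok_le {S : RS} (hS : RSwf S) {R : Rule} (hR : R ∈ S.2.2.1) {t v : ℕ} (hv : v ≤ S.1) :
    tok S.1 R t v ≤ S.1 := by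
  unfold tok
  split_ifs with h
  · exact le_rfl
  · split
    · exact hv
    · next y hy =>
      have : y ∈ R := by
        have h1 := List.mem_of_mem_head? hy
        exact (List.mem_filter.1 h1).1
      split_ifs
      · exact hS.2 R hR y this
      · exact le_rfl

theorem getD_mem {R : List Rule} {i : ℕ} (hi : i < R.length) : R.getD i [] ∈ R := by
  rw [List.getD_eq_getElem _ _ hi]
  exact List.getElem_mem hi

theorem runT_le {S : RS} (hS : RSwf S) {w : List ℕ} (hw : ∀ i ∈ w, i < S.2.2.1.length)
    {t v : ℕ} (hv : v ≤ S.1) : runT S w t v ≤ S.1 := by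
  induction w generalizing v with
  | nil => exact hv
  | cons a w ih =>
    exact ih (fun i hi => hw i (List.mem_cons_of_mem _ hi))
      (tok_le hS (getD_mem (hw a (by simp))) hv)

theorem RSyes_iff (S : RS) : RSyes S ↔ ∃ w : List ℕ, (∀ i ∈ w, i < S.2.2.1.length) ∧
    ∀ t < S.2.1.length, okf S.1 S.2.2.2 t (runT S w t (S.2.1.getD t 0)) = true := by
  constructor
  · rintro ⟨w, hw1, hw2⟩
    have : ∃ w' : List ℕ, (∀ i ∈ w', i < S.2.2.1.length) ∧ w = w'.map fun i => S.2.2.1.getD i [] := by
      clear hw2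
      induction w with
      | nil => exact ⟨[], by simp, rfl⟩
      | cons R w ih =>
        obtain ⟨w', h1, h2⟩ := ih (fun R hR => hw1 R (List.mem_cons_of_mem _ hR))
        obtain ⟨i, hi, hiR⟩ := List.getElem_of_mem (hw1 R (by simp))
        refine ⟨i :: w', ?_, ?_⟩
        · intro j hj
          rcases List.mem_cons.1 hj with rfl | hj
          · exact hi
          · exact h1 j hj
        · rw [List.map_cons, ← h2, List.getD_eq_getElem _ _ hi, hiR]
    obtain ⟨w', h1, rfl⟩ := this
    refine ⟨w', h1, fun t ht => ?_⟩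
    have := hw2 t ht
    rwa [List.foldl_map] at this
  · rintro ⟨w, hw1, hw2⟩
    refine ⟨w.map fun i => S.2.2.1.getD i [], ?_, ?_⟩
    · intro R hR
      obtain ⟨i, hi, rfl⟩ := List.mem_map.1 hR
      exact getD_mem (hw1 i hi)
    · intro t ht
      rw [List.foldl_map]
      exact hw2 t ht

theorem runN_rules {k : ℕ} {S : RS} (hS : RSwf S) {w : List ℕ}
    (hw : ∀ i ∈ w, i < S.2.2.1.length) {t v : ℕ} (hv : v ≤ S.1) :
    runN k S (w.map (2 + ·)) (stt k S t v) = stt k S t (runT S w t v) := by
  induction w generalizing v with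
  | nil => rfl
  | cons a w ih =>
    have h1 := tok_le hS (getD_mem (hw a (by simp))) (t := t) hv
    have : runN k S ((a :: w).map (2 + ·)) (stt k S t v) =
        runN k S (w.map (2 + ·)) (dl k S (stt k S t v) (2 + a)) := rfl
    rw [this, dl_rule hv, min_eq_left h1, ih (fun i hi => hw i (List.mem_cons_of_mem _ hi)) h1]
    rfl

theorem dl_low {k : ℕ} {S : RS} {s a : ℕ} (hs : s < k + 3) : dl k S s (2 + a) = s := by
  unfold dl
  rw [if_pos hs, if_neg (by omega), if_neg (by omega)]

theorem dl_exit_low {k : ℕ} {S : RS} {s : ℕ} (hs : s < k + 3) :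
    dl k S s 1 = if s = 2 then 0 else if s = 3 then 1 else s := by
  unfold dl
  rw [if_pos hs, if_neg (by omega), if_pos rfl]

theorem runN_low {k : ℕ} {S : RS} {s : ℕ} (w : List ℕ) (hs : s < k + 3) :
    runN k S (w.map (2 + ·)) s = s := by
  induction w with
  | nil => rfl
  | cons a w ih =>
    have : runN k S ((a :: w).map (2 + ·)) s = runN k S (w.map (2 + ·)) (dl k S s (2 + a)) := rfl
    rw [this, dl_low hs, ih]

theorem runN_four {k : ℕ} (hk : 2 ≤ k) {S : RS} (w : List ℕ) (hw : 0 ∉ w) : runN k S w 4 = 4 := by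
  induction w with
  | nil => rfl
  | cons a w ih =>
    have h0 : a ≠ 0 := fun h => hw (by simp [h])
    have : dl k S 4 a = 4 := by
      unfold dl
      rw [if_pos (by omega), if_neg h0]
      split_ifs <;> first | rfl | omega
    show runN k S w (dl k S 4 a) = 4
    rw [this]
    exact ih (fun h => hw (List.mem_cons_of_mem _ h))

/-- The only way to reach the state `0` from another state is from the state `2` through the
letter `1`. -/
theorem eq_zero_of_dl {k : ℕ} (hk : 2 ≤ k) {S : RS} {s a : ℕ} (h : dl k S s a = 0) :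
    (s = 0 ∧ a ≠ 0) ∨ (s = 2 ∧ a = 1) := by
  unfold dl at h
  split_ifs at h with h1 h2 h3 h4 h5 h6 h7 h8 h9 <;> omega

theorem eq_two_of_dl {k : ℕ} (hk : 2 ≤ k) {S : RS} {s a : ℕ} (h : dl k S s a = 2) :
    s = 2 ∧ a ≠ 1 := by
  unfold dl at h
  split_ifs at h with h1 h2 h3 h4 h5 h6 h7 h8 h9 <;> omega

theorem no_exit_of_two {k : ℕ} (hk : 2 ≤ k) {S : RS} (w : List ℕ) {s : ℕ}
    (h : runN k S w s = 2) : 1 ∉ w := by
  induction w using List.reverseRecOn with
  | nil => simp
  | append_singleton w a ih =>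
    rw [runN_append] at h
    obtain ⟨h1, h2⟩ := eq_two_of_dl hk (show dl k S (runN k S w s) a = 2 from h)
    have := ih h1
    simp only [List.mem_append, List.mem_singleton, not_or]
    exact ⟨this, fun h => h2 h.symm⟩

/-- Words without exit letter keep the tokens. -/
theorem exists_runN_token {k : ℕ} {S : RS} (w : List ℕ) (hw : 1 ∉ w) {t v : ℕ} (hv : v ≤ S.1) :
    ∃ v' ≤ S.1, runN k S w (stt k S t v) = stt k S t v' := by
  induction w generalizing v with
  | nil => exact ⟨v, hv, rfl⟩
  | cons a w ih =>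
    have h1 : ∃ v' ≤ S.1, dl k S (stt k S t v) a = stt k S t v' := by
      rcases a with _ | _ | a
      · exact ⟨_, min_le_right _ _, dl_reset hv⟩
      · exact absurd (by simp) hw
      · rw [show a + 1 + 1 = 2 + a by omega]
        exact ⟨_, min_le_right _ _, dl_rule hv⟩
    obtain ⟨v', hv', h1⟩ := h1
    obtain ⟨v'', hv'', h2⟩ := ih (fun h => hw (List.mem_cons_of_mem _ h)) hv'
    refine ⟨v'', hv'', ?_⟩
    show runN k S w (dl k S (stt k S t v) a) = _
    rw [h1, h2]

theorem reachable_of_yes {k : ℕ} (hk : 2 ≤ k) {S : RS} (hS : RSwf S) (h : RSyes S) :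
    ReachableSubset k (toInst k S) := by
  rw [reachable_iff hk]
  obtain ⟨w, hw1, hw2⟩ := (RSyes_iff S).1 h
  have hle : k + 3 ≤ nst k S := by unfold nst; omega
  have hrun : ∀ s, runN k S ([0] ++ (w.map (2 + ·) ++ [1])) s =
      dl k S (runN k S (w.map (2 + ·)) (dl k S s 0)) 1 := by
    intro s
    rw [runN_append, runN_append]
    rfl
  refine ⟨[0] ++ (w.map (2 + ·) ++ [1]), ?_, ?_, ?_⟩
  · intro a ha
    simp only [List.mem_append, List.mem_singleton, List.mem_map] at ha
    rcases ha with rfl | ⟨i, hi, rfl⟩ | rfl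
    · omega
    · have := hw1 i hi; omega
    · omega
  · intro s hs
    rw [hrun]
    by_cases h1 : s < k + 3
    · have h2 : dl k S s 0 = if s = 0 ∨ s = 1 ∨ s = 4 then 3 else s := by
        unfold dl; rw [if_pos h1, if_pos rfl]
      by_cases h5 : s = 0 ∨ s = 1 ∨ s = 4
      · rw [if_pos h5] at h2
        rw [h2, runN_low w (by omega), dl_exit_low (by omega), if_neg (by omega), if_pos rfl]
        omega
      · rw [if_neg h5] at h2
        rw [h2, runN_low w h1, dl_exit_low h1]
        by_cases h6 : s = 2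
        · rw [if_pos h6]; omega
        · rw [if_neg h6]
          by_cases h7 : s = 3
          · rw [if_pos h7]; omega
          · rw [if_neg h7]; omega
    · obtain ⟨t, v, ht, hv, rfl⟩ := exists_stt hs h1
      have hi : S.2.1.getD t 0 < S.1 := by
        rw [List.getD_eq_getElem _ _ ht]
        exact hS.1 _ (List.getElem_mem ht)
      rw [dl_reset hv, min_eq_left hi.le, runN_rules hS hw1 hi.le,
        dl_exit (runT_le hS hw1 hi.le), if_pos (hw2 t ht)]
      omega
  · rintro q ⟨hq1, hq2⟩
    have hq0 : q = 0 ∨ q = 1 ∨ 5 ≤ q := by omega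
    rcases hq0 with rfl | rfl | hq
    · refine ⟨2, by omega, ?_⟩
      rw [hrun]
      have h2 : dl k S 2 0 = 2 := by
        unfold dl; rw [if_pos (by omega), if_pos rfl, if_neg (by omega)]
      rw [h2, runN_low w (by omega)]
      unfold dl; rw [if_pos (by omega), if_neg (by omega), if_pos rfl, if_pos rfl]
    · refine ⟨3, by omega, ?_⟩
      rw [hrun]
      have h2 : dl k S 3 0 = 3 := by
        unfold dl; rw [if_pos (by omega), if_pos rfl, if_neg (by omega)]
      rw [h2, runN_low w (by omega)]
      unfold dl; rw [if_pos (by omega), if_neg (by omega), if_pos rfl, if_neg (by omega), if_pos rfl]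
    · refine ⟨q, by omega, ?_⟩
      rw [hrun]
      have h2 : dl k S q 0 = q := by
        unfold dl; rw [if_pos (by omega), if_pos rfl, if_neg (by omega)]
      rw [h2, runN_low w (by omega)]
      unfold dl; rw [if_pos (by omega), if_neg (by omega), if_pos rfl, if_neg (by omega),
        if_neg (by omega)]

theorem yes_of_reachable {k : ℕ} (hk : 2 ≤ k) {S : RS} (hS : RSwf S)
    (h : ReachableSubset k (toInst k S)) : RSyes S := by
  rw [reachable_iff hk] at h
  obtain ⟨w, hw1, hw2, hw3⟩ := h
  have hle : k + 3 ≤ nst k S := by unfold nst; omega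
  -- the reset letter occurs
  have h0 : 0 ∈ w := by
    by_contra h0
    have := (hw2 4 (by omega)).2
    rw [runN_four hk w h0] at this
    exact this (Or.inr (Or.inr rfl))
  -- the last reset letter
  obtain ⟨u, v, rfl, hv0⟩ : ∃ u v, w = u ++ 0 :: v ∧ 0 ∉ v := by
    clear hw1 hw2 hw3
    induction w using List.reverseRecOn with
    | nil => simp at h0
    | append_singleton w a ih =>
      by_cases ha : a = 0
      · exact ⟨w, [], by rw [ha], by simp⟩
      · have : 0 ∈ w := by
          rcases List.mem_append.1 h0 with h | h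
          · exact h
          · exact absurd (List.mem_singleton.1 h).symm ha
        obtain ⟨u, v, rfl, hv⟩ := ih this
        refine ⟨u, v ++ [a], by simp, ?_⟩
        simp only [List.mem_append, List.mem_singleton, not_or]
        exact ⟨hv, fun h => ha h.symm⟩
  -- the state 0 is reached
  obtain ⟨s, hs, hs0⟩ := hw3 0 ⟨by omega, by omega⟩
  have key : ∀ v : List ℕ, ∀ s, 0 ∉ v → runN k S v s = 0 → s = 0 ∨ s = 2 := by
    intro v
    induction v with
    | nil => intro s _ h; exact Or.inl h
    | cons a v ih =>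
      intro s h0 h
      have := ih (dl k S s a) (fun h => h0 (List.mem_cons_of_mem _ h)) h
      rcases this with h1 | h1
      · rcases eq_zero_of_dl hk h1 with ⟨h2, -⟩ | ⟨h2, -⟩
        · exact Or.inl h2
        · exact Or.inr h2
      · exact Or.inr (eq_two_of_dl hk h1).1
  have hu : 1 ∉ u := by
    have e : runN k S (u ++ 0 :: v) s = runN k S v (dl k S (runN k S u s) 0) := by
      rw [runN_append]; rfl
    rw [e] at hs0
    rcases key v _ hv0 hs0 with h1 | h1
    · rcases eq_zero_of_dl hk h1 with ⟨-, h2⟩ | ⟨-, h2⟩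
      · exact absurd rfl h2
      · omega
    · exact no_exit_of_two hk u (eq_two_of_dl hk h1).1
  -- the exit letter occurs after the last reset
  have hlow2 : dl k S 2 0 = 2 := by
    unfold dl; rw [if_pos (by omega), if_pos rfl, if_neg (by omega)]
  have h1v : 1 ∈ v := by
    by_contra h1
    have hu2 : ∀ u : List ℕ, 1 ∉ u → runN k S u 2 = 2 := by
      intro u
      induction u with
      | nil => intro _; rfl
      | cons a u ih =>
        intro ha
        have ha1 : a ≠ 1 := fun h => ha (by simp [h])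
        have : dl k S 2 a = 2 := by
          rcases a with _ | _ | a
          · exact hlow2
          · exact absurd rfl ha1
          · rw [show a + 1 + 1 = 2 + a by omega]
            exact dl_low (by omega)
        show runN k S u (dl k S 2 a) = 2
        rw [this]
        exact ih (fun h => ha (List.mem_cons_of_mem _ h))
    have := (hw2 2 (by omega)).2
    rw [hu2 (u ++ 0 :: v)] at this
    · exact this (Or.inl rfl)
    · simp only [List.mem_append, List.mem_cons, not_or]
      exact ⟨hu, by omega, h1⟩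
  obtain ⟨x, y, rfl, hx1⟩ : ∃ x y, v = x ++ 1 :: y ∧ 1 ∉ x := by
    clear hw1 hw2 hw3 hv0 hs0 h0
    induction v with
    | nil => simp at h1v
    | cons a v ih =>
      by_cases ha : a = 1
      · exact ⟨[], v, by rw [ha]; rfl, by simp⟩
      · have : 1 ∈ v := by
          rcases List.mem_cons.1 h1v with h | h
          · exact absurd h.symm ha
          · exact h
        obtain ⟨x, y, rfl, hx⟩ := ih this
        refine ⟨a :: x, y, rfl, ?_⟩
        simp only [List.mem_cons, not_or]
        exact ⟨fun h => ha h.symm, hx⟩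
  -- `x` consists of rules
  have hx0 : 0 ∉ x := fun h => hv0 (by simp [h])
  have hy0 : 0 ∉ y := fun h => hv0 (by simp [h])
  have hxl : ∀ a ∈ x, a < 2 + S.2.2.1.length := fun a ha => hw1 a (by simp [ha])
  obtain ⟨x', hx', rfl⟩ : ∃ x' : List ℕ, (∀ i ∈ x', i < S.2.2.1.length) ∧ x = x'.map (2 + ·) := by
    refine ⟨x.map (fun a => a - 2), ?_, ?_⟩
    · intro i hi
      obtain ⟨a, ha, rfl⟩ := List.mem_map.1 hi
      have h1 : a ≠ 0 := fun h => hx0 (h ▸ ha)
      have h2 : a ≠ 1 := fun h => hx1 (h ▸ ha)
      have := hxl a ha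
      omega
    · rw [List.map_map]
      conv_lhs => rw [← List.map_id x]
      refine List.map_congr_left ?_
      intro a ha
      have h1 : a ≠ 0 := fun h => hx0 (h ▸ ha)
      have h2 : a ≠ 1 := fun h => hx1 (h ▸ ha)
      simp only [id, Function.comp]
      omega
  rw [RSyes_iff]
  refine ⟨x', hx', fun t ht => ?_⟩
  by_contra hok
  have hi : S.2.1.getD t 0 < S.1 := by
    rw [List.getD_eq_getElem _ _ ht]
    exact hS.1 _ (List.getElem_mem ht)
  have hbad := (hw2 (stt k S t 0) (stt_lt ht (by omega))).2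
  obtain ⟨v', hv', h2⟩ := exists_runN_token (k := k) (t := t) u hu (Nat.zero_le S.1)
  have e : runN k S (u ++ 0 :: (x'.map (2 + ·) ++ 1 :: y)) (stt k S t 0) =
      runN k S y (dl k S (runN k S (x'.map (2 + ·)) (dl k S (runN k S u (stt k S t 0)) 0)) 1) := by
    rw [runN_append]
    show runN k S (x'.map (2 + ·) ++ 1 :: y) (dl k S (runN k S u (stt k S t 0)) 0) = _
    rw [runN_append]
    rfl
  rw [e, h2, dl_reset hv', min_eq_left hi.le, runN_rules hS hx' hi.le,
    dl_exit (runT_le hS hx' hi.le), if_neg hok, runN_four hk y hy0] at hbad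
  exact hbad (Or.inr (Or.inr rfl))

theorem toInst_iff {k : ℕ} (hk : 2 ≤ k) {S : RS} (hS : RSwf S) :
    ReachableSubset k (toInst k S) ↔ RSyes S :=
  ⟨yes_of_reachable hk hS, reachable_of_yes hk hS⟩

end Pool.Agent.H623R2.PS
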