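import Pool.Agent.H623R2.PS.Rules

/-!
# The reduction from rule systems to REACHABLE SUBSET_k is polynomial
-/

namespace Pool.Agent.H623R2.PS

open Pool.Agent.NPC

variable {α : Type} [TEnc α]

theorem poly_find {l : α → List (ℕ × ℕ × ℕ)} {t : α → ℕ} (hl : NPC.Poly l) (ht : NPC.Poly t) :
    NPC.Poly (fun a => ((l a).filter fun y => decide (y.1 = t a)).head?) := by
  refine NPC.Poly.head? ?_
  exact NPC.Poly.filter (p := fun a y => decide (y.1 = t a)) hl
    (NPC.Poly.decide_eq (NPC.Poly.fst (NPC.Poly.snd NPC.Poly.id)) (ht.comp (NPC.Poly.fst NPC.Poly.id)))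

theorem poly_find2 {l : α → List (ℕ × ℕ)} {t : α → ℕ} (hl : NPC.Poly l) (ht : NPC.Poly t) :
    NPC.Poly (fun a => ((l a).filter fun y => decide (y.1 = t a)).head?) := by
  refine NPC.Poly.head? ?_
  exact NPC.Poly.filter (p := fun a y => decide (y.1 = t a)) hl
    (NPC.Poly.decide_eq (NPC.Poly.fst (NPC.Poly.snd NPC.Poly.id)) (ht.comp (NPC.Poly.fst NPC.Poly.id)))

theorem poly_tok {V t v : α → ℕ} {R : α → Rule} (hV : NPC.Poly V) (hR : NPC.Poly R) (ht : NPC.Poly t)
    (hv : NPC.Poly v) : NPC.Poly (fun a => tok (V a) (R a) (t a) (v a)) := by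
  unfold tok
  refine NPC.Poly.ite (NPC.Poly.decide_eq hv hV) hV ?_
  refine (NPC.Poly.optCases (o := fun a => ((R a).filter fun y => decide (y.1 = t a)).head?)
    (g := v) (h := fun a y => if v a = y.2.1 then y.2.2 else V a) (poly_find hR ht) hv ?_).congr
    (fun a => by cases ((R a).filter fun y => decide (y.1 = t a)).head? <;> rfl)
  have h1 : NPC.Poly (fun p : α × (ℕ × ℕ × ℕ) => p.1) := NPC.Poly.fst NPC.Poly.id
  have h2 : NPC.Poly (fun p : α × (ℕ × ℕ × ℕ) => p.2) := NPC.Poly.snd NPC.Poly.id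
  exact NPC.Poly.ite (NPC.Poly.decide_eq (hv.comp h1) (NPC.Poly.fst (NPC.Poly.snd h2))) (NPC.Poly.snd (NPC.Poly.snd h2))
    (hV.comp h1)

theorem poly_okf {V t v : α → ℕ} {F : α → List (ℕ × ℕ)} (hV : NPC.Poly V) (hF : NPC.Poly F)
    (ht : NPC.Poly t) (hv : NPC.Poly v) : NPC.Poly (fun a => okf (V a) (F a) (t a) (v a)) := by
  unfold okf
  refine NPC.Poly.and (NPC.Poly.decide_not (NPC.Poly.decide_eq hv hV)) ?_
  refine (NPC.Poly.optCases (o := fun a => ((F a).filter fun y => decide (y.1 = t a)).head?)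
    (g := fun _ => true) (h := fun a y => decide (v a = y.2)) (poly_find2 hF ht)
    (NPC.Poly.const _) ?_).congr
    (fun a => by cases ((F a).filter fun y => decide (y.1 = t a)).head? <;> rfl)
  have h1 : NPC.Poly (fun p : α × (ℕ × ℕ) => p.1) := NPC.Poly.fst NPC.Poly.id
  have h2 : NPC.Poly (fun p : α × (ℕ × ℕ) => p.2) := NPC.Poly.snd NPC.Poly.id
  exact NPC.Poly.decide_eq (hv.comp h1) (NPC.Poly.snd h2)

theorem poly_dl (k : ℕ) {S : α → RS} {s a : α → ℕ} (hS : NPC.Poly S) (hs : NPC.Poly s) (ha : NPC.Poly a) :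
    NPC.Poly (fun x => dl k (S x) (s x) (a x)) := by
  have hV : NPC.Poly (fun x => (S x).1) := NPC.Poly.fst hS
  have hI : NPC.Poly (fun x => (S x).2.1) := NPC.Poly.fst (NPC.Poly.snd hS)
  have hR : NPC.Poly (fun x => (S x).2.2.1) := NPC.Poly.fst (NPC.Poly.snd (NPC.Poly.snd hS))
  have hF : NPC.Poly (fun x => (S x).2.2.2) := NPC.Poly.snd (NPC.Poly.snd (NPC.Poly.snd hS))
  have hc : ∀ n : ℕ, NPC.Poly (fun _ : α => n) := fun n => NPC.Poly.const n
  have heq : ∀ (n : ℕ) {f : α → ℕ}, NPC.Poly f → NPC.Poly (fun x => decide (f x = n)) :=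
    fun n f hf => NPC.Poly.decide_eq hf (hc n)
  have hV1 : NPC.Poly (fun x => (S x).1 + 1) := NPC.Poly.succ hV
  have hsub : NPC.Poly (fun x => s x - (k + 3)) := NPC.Poly.sub hs (hc _)
  have ht : NPC.Poly (fun x => (s x - (k + 3)) / ((S x).1 + 1)) := NPC.Poly.div hsub hV1
  have hv : NPC.Poly (fun x => (s x - (k + 3)) % ((S x).1 + 1)) := NPC.Poly.mod hsub hV1
  have hbase : ∀ {f : α → ℕ}, NPC.Poly f → NPC.Poly (fun x => k + 3 +
      (((s x - (k + 3)) / ((S x).1 + 1)) * ((S x).1 + 1) + min (f x) (S x).1)) :=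
    fun hf => NPC.Poly.add (hc _) (NPC.Poly.add (NPC.Poly.mul ht hV1) (NPC.Poly.min hf hV))
  unfold dl
  refine NPC.Poly.ite (NPC.Poly.decide_lt hs (hc _)) ?_ ?_
  · refine NPC.Poly.ite (heq 0 ha) ?_ (NPC.Poly.ite (heq 1 ha) ?_ hs)
    · exact NPC.Poly.ite (NPC.Poly.decide_or (heq 0 hs) (NPC.Poly.decide_or (heq 1 hs) (heq 4 hs))) (hc 3) hs
    · exact NPC.Poly.ite (heq 2 hs) (hc 0) (NPC.Poly.ite (heq 3 hs) (hc 1) hs)
  · refine NPC.Poly.ite (heq 0 ha) (hbase (NPC.Poly.getD hI ht (hc 0))) (NPC.Poly.ite (heq 1 ha) ?_ ?_)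
    · exact NPC.Poly.ite (NPC.Poly.decide_bool (poly_okf hV hF ht hv)) (hc 1) (hc 4)
    · exact hbase (poly_tok hV (NPC.Poly.getD hR (NPC.Poly.sub ha (hc 2)) (NPC.Poly.const [])) ht hv)

theorem finRange_map_val {β : Type} (n : ℕ) (f : ℕ → β) :
    (List.finRange n).map (fun i => f i.val) = (List.range n).map f := by
  rw [← List.map_coe_finRange_eq_range, List.map_map]
  rfl

theorem poly_toInst (k : ℕ) {S : α → RS} (hS : NPC.Poly S) (hU : UPoly (fun x => (S x).1)) :
    NPC.Poly (fun x => toInst k (S x)) := by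
  have hI : NPC.Poly (fun x => (S x).2.1) := NPC.Poly.fst (NPC.Poly.snd hS)
  have hR : NPC.Poly (fun x => (S x).2.2.1) := NPC.Poly.fst (NPC.Poly.snd (NPC.Poly.snd hS))
  have hn : UPoly (fun x => nst k (S x)) := by
    unfold nst
    exact UPoly.add (UPoly.const _) (UPoly.mul (UPoly.length hI) (UPoly.add hU (UPoly.const 1)))
  have hm : UPoly (fun x => 2 + (S x).2.2.1.length) := UPoly.add (UPoly.const 2) (UPoly.length hR)
  have h1 : NPC.Poly (fun x => (List.range (2 + (S x).2.2.1.length)).map fun a =>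
      (List.range (nst k (S x))).map fun s =>
        if dl k (S x) s a < nst k (S x) then dl k (S x) s a else 0) := by
    refine NPC.Poly.map (F := fun x a => (List.range (nst k (S x))).map fun s =>
      if dl k (S x) s a < nst k (S x) then dl k (S x) s a else 0) hm.range ?_
    have hx : NPC.Poly (fun p : α × ℕ => p.1) := NPC.Poly.fst NPC.Poly.id
    refine NPC.Poly.map (F := fun (p : α × ℕ) s =>
      if dl k (S p.1) s p.2 < nst k (S p.1) then dl k (S p.1) s p.2 else 0)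
      (hn.comp hx).range ?_
    have hx : NPC.Poly (fun p : (α × ℕ) × ℕ => p.1.1) := NPC.Poly.fst (NPC.Poly.fst NPC.Poly.id)
    have ha : NPC.Poly (fun p : (α × ℕ) × ℕ => p.1.2) := NPC.Poly.snd (NPC.Poly.fst NPC.Poly.id)
    have hs : NPC.Poly (fun p : (α × ℕ) × ℕ => p.2) := NPC.Poly.snd NPC.Poly.id
    have hd := poly_dl k (hS.comp hx) hs ha
    exact NPC.Poly.ite (NPC.Poly.decide_lt hd (hn.toPoly.comp hx)) hd (NPC.Poly.const 0)
  have h2 : NPC.Poly (fun x => (List.range (nst k (S x))).map fun q =>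
      decide (q < k + 3 ∧ ¬ (q = 2 ∨ q = 3 ∨ q = 4))) := by
    refine NPC.Poly.map (F := fun (_ : α) q => decide (q < k + 3 ∧ ¬ (q = 2 ∨ q = 3 ∨ q = 4)))
      hn.range ?_
    have hs : NPC.Poly (fun p : α × ℕ => p.2) := NPC.Poly.snd NPC.Poly.id
    have heq : ∀ n : ℕ, NPC.Poly (fun p : α × ℕ => decide (p.2 = n)) :=
      fun n => NPC.Poly.decide_eq hs (NPC.Poly.const n)
    exact NPC.Poly.decide_and (NPC.Poly.decide_lt hs (NPC.Poly.const _))
      (NPC.Poly.decide_not (NPC.Poly.decide_or (heq 2) (NPC.Poly.decide_or (heq 3) (heq 4))))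
  have h3 := NPC.Poly.pair hn.toPoly (NPC.Poly.pair hm.toPoly (NPC.Poly.pair h1 h2))
  refine NPC.Poly.of_toT (h3.toT'.congr fun x => ?_)
  show toT _ = toT (toInst k (S x)).code
  congr 1
  unfold Inst.code
  have e1 : ∀ a : Fin (toInst k (S x)).m,
      ((List.finRange (toInst k (S x)).n).map fun q => ((toInst k (S x)).δ q a).val) =
      (List.range (nst k (S x))).map fun s =>
        if dl k (S x) s a.val < nst k (S x) then dl k (S x) s a.val else 0 := by
    intro a
    exact finRange_map_val (nst k (S x)) (fun s =>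
        if dl k (S x) s a.val < nst k (S x) then dl k (S x) s a.val else 0)
  simp only [e1]
  have e2 := finRange_map_val (2 + (S x).2.2.1.length) (fun a =>
    (List.range (nst k (S x))).map fun s =>
        if dl k (S x) s a < nst k (S x) then dl k (S x) s a else 0)
  have e3 := finRange_map_val (nst k (S x)) (fun q =>
    decide (q < k + 3 ∧ ¬ (q = 2 ∨ q = 3 ∨ q = 4)))
  have e4 : ((List.finRange (toInst k (S x)).n).map fun q => decide (q ∈ (toInst k (S x)).P)) =
      (List.range (nst k (S x))).map fun q =>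
        decide (q < k + 3 ∧ ¬ (q = 2 ∨ q = 3 ∨ q = 4)) := by
    rw [← e3]
    refine List.map_congr_left ?_
    intro q _
    refine decide_eq_decide.2 ?_
    refine Iff.trans Finset.mem_filter ?_
    exact ⟨fun h => h.2, fun h => ⟨Finset.mem_univ _, h⟩⟩
  rw [e4]
  exact congrArg₂ Prod.mk rfl (congrArg₂ Prod.mk rfl (congrArg₂ Prod.mk e2.symm rfl))

end Pool.Agent.H623R2.PS
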