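import Pool.Agent.H623R2.PS.Rules

/-!
# Stack machines with bounded stacks, and rule systems
-/

namespace Pool.Agent.H623R2.PS

open Pool.Agent.NPC

/-- One operation of a stack machine. -/
inductive Op (K : Type) (Γ : K → Type) (C : Type)
  | stop
  | move (c : C)
  | push (k : K) (γ : Γ k) (c : C)
  | look (k : K) (b : Bool) (g : Option (Γ k) → C)

/-- A stack machine. -/
structure SM where
  K : Type
  [dK : DecidableEq K]
  [fK : Fintype K]
  Γ : K → Type
  C : Type
  op : C → Op K Γ C
  LC : List C
  LG : List (Σ k, Γ k)
  hmove : ∀ c ∈ LC, ∀ c', op c = .move c' → c' ∈ LC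
  hpush : ∀ c ∈ LC, ∀ k γ c', op c = .push k γ c' → c' ∈ LC ∧ ⟨k, γ⟩ ∈ LG
  hlook : ∀ c ∈ LC, ∀ k b g, op c = .look k b g → ∀ o, g o ∈ LC

attribute [instance] SM.dK SM.fK

namespace SM

variable (M : SM)

/-- One step of a stack machine. -/
def step1 (x : M.C × (∀ k, List (M.Γ k))) : Option (M.C × (∀ k, List (M.Γ k))) :=
  match M.op x.1 with
  | .stop => none
  | .move c' => some (c', x.2)
  | .push k γ c' => some (c', Function.update x.2 k (γ :: x.2 k))
  | .look k b g => some (g (x.2 k).head?, cond b (Function.update x.2 k (x.2 k).tail) x.2)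

open Classical in
/-- The code of a control state. -/
noncomputable def cc (c : M.C) : ℕ := List.idxOf c M.LC

open Classical in
/-- The code of a symbol. -/
noncomputable def zc (z : Σ k, M.Γ k) : ℕ := List.idxOf z M.LG

theorem cc_inj {c c' : M.C} (h : M.cc c = M.cc c') (h' : c' ∈ M.LC) : c = c' := by
  classical
  unfold cc at h
  have h1 : List.idxOf c' M.LC < M.LC.length := List.idxOf_lt_length_iff.2 h'
  have h2 : c ∈ M.LC := List.idxOf_lt_length_iff.1 (by convert (h ▸ h1))
  exact (List.idxOf_inj h2).1 (by convert h)

theorem zc_inj {c c' : Σ k, M.Γ k} (h : M.zc c = M.zc c') (h' : c' ∈ M.LG) : c = c' := by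
  classical
  unfold zc at h
  have h1 : List.idxOf c' M.LG < M.LG.length := List.idxOf_lt_length_iff.2 h'
  have h2 : c ∈ M.LG := List.idxOf_lt_length_iff.1 (by convert (h ▸ h1))
  exact (List.idxOf_inj h2).1 (by convert h)

theorem cc_le (c : M.C) : M.cc c ≤ M.LC.length := by
  classical
  unfold cc
  exact List.idxOf_le_length

theorem zc_le (c : Σ k, M.Γ k) : M.zc c ≤ M.LG.length := by
  classical
  unfold zc
  exact List.idxOf_le_length

/-- The number of a stack. -/
noncomputable def kc (k : M.K) : ℕ := (Fintype.equivFin M.K k).val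

theorem kc_lt (k : M.K) : M.kc k < Fintype.card M.K := (Fintype.equivFin M.K k).isLt

theorem kc_inj {k k' : M.K} (h : M.kc k = M.kc k') : k = k' :=
  (Fintype.equivFin M.K).injective (Fin.ext h)

/-- The token of a cell of a stack. -/
noncomputable def cell (B : ℕ) (k : M.K) (j : ℕ) : ℕ := 1 + Fintype.card M.K + (M.kc k * B + j)

theorem cell_inj {B : ℕ} {k k' : M.K} {j j' : ℕ} (hj : j < B) (hj' : j' < B)
    (h : M.cell B k j = M.cell B k' j') : k = k' ∧ j = j' := by
  unfold cell at h
  have h1 : M.kc k * B + j = M.kc k' * B + j' := by omega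
  have h2 : M.kc k = M.kc k' := by
    have e1 : (M.kc k * B + j) / B = M.kc k := by
      rw [Nat.add_comm, Nat.add_mul_div_right _ _ (by omega), Nat.div_eq_of_lt hj, Nat.zero_add]
    have e2 : (M.kc k' * B + j') / B = M.kc k' := by
      rw [Nat.add_comm, Nat.add_mul_div_right _ _ (by omega), Nat.div_eq_of_lt hj', Nat.zero_add]
    rw [← e1, ← e2, h1]
  have h3 : j = j' := by rw [h2] at h1; omega
  exact ⟨M.kc_inj h2, h3⟩

/-- The number of tokens. -/
noncomputable def ntok (B : ℕ) : ℕ := 1 + Fintype.card M.K + Fintype.card M.K * B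

theorem cell_lt {B : ℕ} {k : M.K} {j : ℕ} (hj : j < B) : M.cell B k j < M.ntok B := by
  unfold cell ntok
  have h1 : (M.kc k + 1) * B ≤ Fintype.card M.K * B := Nat.mul_le_mul_right _ (M.kc_lt k)
  have h2 : (M.kc k + 1) * B = M.kc k * B + B := by ring
  omega

theorem hgt_lt {B : ℕ} {k : M.K} : 1 + M.kc k < M.ntok B := by
  unfold ntok
  have := M.kc_lt k
  omega

theorem cell_ne_hgt {B : ℕ} {k k' : M.K} {j : ℕ} : M.cell B k j ≠ 1 + M.kc k' := by
  unfold cell
  have := M.kc_lt k'
  omega

theorem cell_ne_zero {B : ℕ} {k : M.K} {j : ℕ} : M.cell B k j ≠ 0 := by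
  unfold cell
  omega

/-- The value of dead tokens. -/
noncomputable def vdead (B : ℕ) : ℕ := M.LC.length + M.LG.length + B + 1

/-- The rules for a control state. -/
noncomputable def rules1 (B : ℕ) (c : M.C) : List Rule :=
  match M.op c with
  | .stop => []
  | .move c' => [[(0, M.cc c, M.cc c')]]
  | .push k γ c' => (List.range B).flatMap fun h => (List.range (M.LG.length + 1)).map fun g' =>
      [(0, M.cc c, M.cc c'), (1 + M.kc k, h, h + 1), (M.cell B k h, g', M.zc ⟨k, γ⟩)]
  | .look k b g => [(0, M.cc c, M.cc (g none)), (1 + M.kc k, 0, 0)] ::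
      (M.LG.flatMap fun z => if e : z.1 = k then (List.range B).map fun h =>
        [(0, M.cc c, M.cc (g (some (e ▸ z.2)))), (1 + M.kc k, h + 1, cond b h (h + 1)),
          (M.cell B k h, M.zc z, M.zc z)] else [])

/-- The values of the tokens represent a configuration. -/
structure Rep (B : ℕ) (vals : ℕ → ℕ) (c : M.C) (S : ∀ k, List (M.Γ k)) : Prop where
  ctl : vals 0 = M.cc c
  hgt : ∀ k, vals (1 + M.kc k) = (S k).length
  len : ∀ k, (S k).length ≤ B
  cel : ∀ k j (h : j < (S k).reverse.length), vals (M.cell B k j) = M.zc ⟨k, (S k).reverse[j]⟩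
  bnd : ∀ k, ∀ j < B, vals (M.cell B k j) ≤ M.LG.length

end SM

theorem tok_dead (V : ℕ) (R : Rule) (t : ℕ) : tok V R t V = V := by
  unfold tok
  rw [if_pos rfl]

theorem filter_head_of_mem {R : Rule} (hd : R.Pairwise fun y z => y.1 ≠ z.1) {y : ℕ × ℕ × ℕ}
    (hy : y ∈ R) : (R.filter fun z => decide (z.1 = y.1)).head? = some y := by
  induction R with
  | nil => simp at hy
  | cons a R ih =>
    rw [List.pairwise_cons] at hd
    rw [List.mem_cons] at hy
    rcases hy with rfl | hy
    · simp
    · have : a.1 ≠ y.1 := hd.1 y hy
      rw [List.filter_cons_of_neg (by simpa using this)]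
      exact ih hd.2 hy

theorem tok_of_mem {V : ℕ} {R : Rule} (hd : R.Pairwise fun y z => y.1 ≠ z.1) {y : ℕ × ℕ × ℕ}
    (hy : y ∈ R) {v : ℕ} (hv : v ≠ V) : tok V R y.1 v = if v = y.2.1 then y.2.2 else V := by
  unfold tok
  rw [if_neg hv, filter_head_of_mem hd hy]

theorem tok_of_not_mem {V : ℕ} {R : Rule} {t : ℕ} (h : ∀ y ∈ R, y.1 ≠ t) (v : ℕ) :
    tok V R t v = v := by
  unfold tok
  have : (R.filter fun y => decide (y.1 = t)) = [] := by
    rw [List.filter_eq_nil_iff]
    intro y hy
    simpa using h y hy
  rw [this]
  split_ifs with h1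
  · exact h1.symm
  · rfl

namespace SM

variable {M : SM}

theorem rules1_pairwise {B : ℕ} {c : M.C} {R : Rule} (hR : R ∈ M.rules1 B c) :
    R.Pairwise fun y z => y.1 ≠ z.1 := by
  unfold rules1 at hR
  split at hR
  · simp at hR
  · simp only [List.mem_singleton] at hR
    subst hR
    simp
  · simp only [List.mem_flatMap, List.mem_range, List.mem_map] at hR
    obtain ⟨h, _, g', _, rfl⟩ := hR
    have h1 := M.cell_ne_hgt (B := B) (k := ‹M.K›) (k' := ‹M.K›) (j := h)
    have h2 := M.cell_ne_zero (B := B) (k := ‹M.K›) (j := h)
    simp only [List.pairwise_cons, List.mem_cons, List.not_mem_nil, or_false, forall_eq_or_imp,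
      forall_eq]
    refine ⟨⟨by omega, fun e => h2 e.symm⟩, fun e => h1 e.symm, ?_⟩
    simp
  · rename_i k b g hop
    rw [List.mem_cons] at hR
    rcases hR with rfl | hR
    · simp only [List.pairwise_cons, List.mem_cons, List.not_mem_nil, or_false, forall_eq]
      refine ⟨by omega, by simp, by simp⟩
    · simp only [List.mem_flatMap] at hR
      obtain ⟨z, hz, hR⟩ := hR
      by_cases e : z.1 = k
      rotate_left
      · rw [dif_neg e] at hR
        simp at hR
      rw [dif_pos e] at hR
      · simp only [List.mem_map, List.mem_range] at hR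
        obtain ⟨h, _, rfl⟩ := hR
        have h1 := M.cell_ne_hgt (B := B) (k := k) (k' := k) (j := h)
        have h2 := M.cell_ne_zero (B := B) (k := k) (j := h)
        simp only [List.pairwise_cons, List.mem_cons, List.not_mem_nil, or_false, forall_eq_or_imp,
          forall_eq]
        refine ⟨⟨by omega, fun e => h2 e.symm⟩, fun e => h1 e.symm, ?_⟩
        simp

theorem zc_lt_vdead {B : ℕ} (z : Σ k, M.Γ k) : M.zc z ≠ M.vdead B := by
  have := M.zc_le z
  unfold vdead
  omega

theorem old_ne_vdead {B : ℕ} {c : M.C} {R : Rule} (hR : R ∈ M.rules1 B c) :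
    ∀ y ∈ R, y.2.1 ≠ M.vdead B := by
  have hc := M.cc_le c
  unfold rules1 at hR
  split at hR
  · simp at hR
  · simp only [List.mem_singleton] at hR
    subst hR
    intro y hy
    simp only [List.mem_singleton] at hy
    subst hy
    show M.cc c ≠ _
    unfold vdead
    omega
  · simp only [List.mem_flatMap, List.mem_range, List.mem_map] at hR
    obtain ⟨h, hh, g', hg', rfl⟩ := hR
    intro y hy
    simp only [List.mem_cons, List.not_mem_nil, or_false] at hy
    rcases hy with rfl | rfl | rfl <;> simp only [vdead] <;> omega
  · rename_i k b g hop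
    rw [List.mem_cons] at hR
    rcases hR with rfl | hR
    · intro y hy
      simp only [List.mem_cons, List.not_mem_nil, or_false] at hy
      rcases hy with rfl | rfl <;> simp only [vdead] <;> omega
    · simp only [List.mem_flatMap] at hR
      obtain ⟨z, hz, hR⟩ := hR
      by_cases e : z.1 = k
      rotate_left
      · rw [dif_neg e] at hR
        simp at hR
      rw [dif_pos e] at hR
      simp only [List.mem_map, List.mem_range] at hR
      obtain ⟨h, hh, rfl⟩ := hR
      intro y hy
      have := M.zc_le z
      simp only [List.mem_cons, List.not_mem_nil, or_false] at hy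
      rcases hy with rfl | rfl | rfl <;> simp only [vdead] <;> omega

theorem tok_fire {B : ℕ} {c : M.C} {R : Rule} (hR : R ∈ M.rules1 B c) {vals : ℕ → ℕ}
    (hf : ∀ y ∈ R, vals y.1 = y.2.1) {y : ℕ × ℕ × ℕ} (hy : y ∈ R) :
    tok (M.vdead B) R y.1 (vals y.1) = y.2.2 := by
  have h1 := hf y hy
  rw [tok_of_mem (rules1_pairwise hR) hy (h1 ▸ old_ne_vdead hR y hy), if_pos h1]

theorem fire {B : ℕ} {vals : ℕ → ℕ} {c : M.C} {S : ∀ k, List (M.Γ k)} (h : M.Rep B vals c S)
    {c0 : M.C} (hc0 : c0 ∈ M.LC) {R : Rule} (hR : R ∈ M.rules1 B c0)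
    (hf : ∀ y ∈ R, vals y.1 = y.2.1) :
    ∃ c' S', M.step1 (c, S) = some (c', S') ∧
      M.Rep B (fun t => tok (M.vdead B) R t (vals t)) c' S' := by
  have hT : ∀ {y : ℕ × ℕ × ℕ}, y ∈ R → tok (M.vdead B) R y.1 (vals y.1) = y.2.2 :=
    fun hy => tok_fire hR hf hy
  have hN : ∀ {t : ℕ}, (∀ y ∈ R, y.1 ≠ t) → tok (M.vdead B) R t (vals t) = vals t :=
    fun ht => tok_of_not_mem ht _
  have key : (∃ n, (0, M.cc c0, n) ∈ R) → c = c0 := by
    rintro ⟨n, hn⟩
    have h1 := hf _ hn
    rw [h.ctl] at h1
    exact M.cc_inj h1 hc0
  have hR' := hR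
  unfold rules1 at hR'
  split at hR'
  · simp at hR'
  · rename_i c' hop
    simp only [List.mem_singleton] at hR'
    have hc : c = c0 := key ⟨M.cc c', by rw [hR']; simp⟩
    subst hc
    refine ⟨c', S, ?_, ?_⟩
    · unfold step1
      simp only [hop]
    · have hn : ∀ t, t ≠ 0 → tok (M.vdead B) R t (vals t) = vals t := by
        intro t ht
        apply hN
        intro y hy
        rw [hR'] at hy
        simp only [List.mem_singleton] at hy
        subst hy
        exact fun e => ht e.symm
      constructor
      · exact hT (y := (0, M.cc c, M.cc c')) (by rw [hR']; simp)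
      · intro k
        show tok _ _ _ _ = _
        rw [hn _ (by omega)]
        exact h.hgt k
      · exact h.len
      · intro k j hj
        show tok _ _ _ _ = _
        rw [hn _ M.cell_ne_zero]
        exact h.cel k j hj
      · intro k j hj
        show tok _ _ _ _ ≤ _
        rw [hn _ M.cell_ne_zero]
        exact h.bnd k j hj
  · rename_i k γ c' hop
    simp only [List.mem_flatMap, List.mem_range, List.mem_map] at hR'
    obtain ⟨d, hd, g', hg', hR'⟩ := hR'
    have hc : c = c0 := key ⟨M.cc c', by rw [← hR']; simp⟩
    subst hc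
    have e1 : vals (1 + M.kc k) = d := hf (1 + M.kc k, d, d + 1) (by rw [← hR']; simp)
    have e2 : (S k).length = d := by rw [← e1, h.hgt k]
    refine ⟨c', Function.update S k (γ :: S k), ?_, ?_⟩
    · unfold step1
      simp only [hop]
    · have hn : ∀ t, t ≠ 0 → t ≠ 1 + M.kc k → t ≠ M.cell B k d →
          tok (M.vdead B) R t (vals t) = vals t := by
        intro t ht ht1 ht2
        apply hN
        intro y hy
        rw [← hR'] at hy
        simp only [List.mem_cons, List.not_mem_nil, or_false] at hy
        rcases hy with rfl | rfl | rfl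
        · exact fun e => ht e.symm
        · exact fun e => ht1 e.symm
        · exact fun e => ht2 e.symm
      have t0 : tok (M.vdead B) R 0 (vals 0) = M.cc c' :=
        hT (y := (0, M.cc c, M.cc c')) (by rw [← hR']; simp)
      have t1 : tok (M.vdead B) R (1 + M.kc k) (vals (1 + M.kc k)) = d + 1 :=
        hT (y := (1 + M.kc k, d, d + 1)) (by rw [← hR']; simp)
      have t2 : tok (M.vdead B) R (M.cell B k d) (vals (M.cell B k d)) = M.zc ⟨k, γ⟩ :=
        hT (y := (M.cell B k d, g', M.zc ⟨k, γ⟩)) (by rw [← hR']; simp)
      constructor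
      · exact t0
      · intro k1
        show tok _ _ _ _ = _
        by_cases hk : k1 = k
        · subst hk
          rw [t1]
          simp [e2]
        · rw [hn _ (by omega) (fun e => hk (M.kc_inj (by omega))) (fun e => M.cell_ne_hgt e.symm),
            Function.update_of_ne hk]
          exact h.hgt k1
      · intro k1
        by_cases hk : k1 = k
        · subst hk
          simp only [Function.update_self, List.length_cons]
          omega
        · rw [Function.update_of_ne hk]
          exact h.len k1
      · intro k1 j hj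
        show tok _ _ _ _ = _
        by_cases hk : k1 = k
        · subst hk
          by_cases hjd : j = d
          · subst hjd
            rw [t2]
            congr 2
            simp only [Function.update_self, List.reverse_cons]
            rw [List.getElem_append_right (by simp [e2])]
            simp
          · simp only [Function.update_self, List.length_reverse, List.length_cons] at hj
            have hj1 : j < (S k1).length := by omega
            have hj2 := h.len k1
            rw [hn _ M.cell_ne_zero M.cell_ne_hgt (fun e => hjd (M.cell_inj (by omega) hd e).2)]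
            rw [h.cel k1 j (by simpa using hj1)]
            congr 2
            simp only [Function.update_self, List.reverse_cons]
            rw [List.getElem_append_left (by simpa using hj1)]
        · have hj' := hj
          simp only [Function.update_of_ne hk, List.length_reverse] at hj'
          have hj2 := h.len k1
          rw [hn _ M.cell_ne_zero M.cell_ne_hgt (fun e => hk (M.cell_inj (by omega) hd e).1)]
          rw [h.cel k1 j (by simpa using hj')]
          congr 2
          simp only [Function.update_of_ne hk]
      · intro k1 j hj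
        show tok _ _ _ _ ≤ _
        by_cases hj1 : M.cell B k1 j = M.cell B k d
        · rw [hj1, t2]
          exact M.zc_le _
        · rw [hn _ M.cell_ne_zero M.cell_ne_hgt hj1]
          exact h.bnd k1 j hj
  · rename_i k b g hop
    rw [List.mem_cons] at hR'
    rcases hR' with hR' | hR'
    · have hc : c = c0 := key ⟨M.cc (g none), by rw [hR']; simp⟩
      subst hc
      have e1 : vals (1 + M.kc k) = 0 := hf (1 + M.kc k, 0, 0) (by rw [hR']; simp)
      have e2 : S k = [] := by
        rw [← List.length_eq_zero_iff, ← h.hgt k, e1]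
      have hn : ∀ t, t ≠ 0 → tok (M.vdead B) R t (vals t) = vals t := by
        intro t ht
        by_cases ht1 : t = 1 + M.kc k
        · subst ht1
          have t1 : tok (M.vdead B) R (1 + M.kc k) (vals (1 + M.kc k)) = 0 :=
            hT (y := (1 + M.kc k, 0, 0)) (by rw [hR']; simp)
          rw [t1, e1]
        · apply hN
          intro y hy
          rw [hR'] at hy
          simp only [List.mem_cons, List.not_mem_nil, or_false] at hy
          rcases hy with rfl | rfl
          · exact fun e => ht e.symm
          · exact fun e => ht1 e.symm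
      refine ⟨g none, S, ?_, ?_⟩
      · unfold step1
        simp only [hop, e2]
        have : Function.update S k ([] : List (M.Γ k)) = S := by
          rw [← e2]; exact Function.update_eq_self k S
        cases b <;> simp [this]
      · constructor
        · exact hT (y := (0, M.cc c, M.cc (g none))) (by rw [hR']; simp)
        · intro k
          show tok _ _ _ _ = _
          rw [hn _ (by omega)]
          exact h.hgt k
        · exact h.len
        · intro k j hj
          show tok _ _ _ _ = _
          rw [hn _ M.cell_ne_zero]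
          exact h.cel k j hj
        · intro k j hj
          show tok _ _ _ _ ≤ _
          rw [hn _ M.cell_ne_zero]
          exact h.bnd k j hj
    · simp only [List.mem_flatMap] at hR'
      obtain ⟨z, hz, hR'⟩ := hR'
      by_cases e : z.1 = k
      rotate_left
      · rw [dif_neg e] at hR'
        simp at hR'
      rw [dif_pos e] at hR'
      simp only [List.mem_map, List.mem_range] at hR'
      obtain ⟨d, hd, hR'⟩ := hR'
      obtain ⟨k0, γ⟩ := z
      simp only at e
      subst e
      simp only at hR'
      have hc : c = c0 := key ⟨M.cc (g (some γ)), by rw [← hR']; simp⟩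
      subst hc
      have e1 : vals (1 + M.kc k0) = d + 1 :=
        hf (1 + M.kc k0, d + 1, cond b d (d + 1)) (by rw [← hR']; simp)
      have e2 : (S k0).length = d + 1 := by rw [← e1, h.hgt k0]
      have e3 : vals (M.cell B k0 d) = M.zc ⟨k0, γ⟩ :=
        hf (M.cell B k0 d, M.zc ⟨k0, γ⟩, M.zc ⟨k0, γ⟩) (by rw [← hR']; simp)
      obtain ⟨γ', T, hST⟩ : ∃ γ' T, S k0 = γ' :: T := by
        cases hS : S k0 with
        | nil => rw [hS] at e2; simp at e2
        | cons a T => exact ⟨a, T, rfl⟩
      have hTl : T.length = d := by rw [hST] at e2; simpa using e2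
      have e4 : γ' = γ := by
        have h1 := h.cel k0 d (by rw [List.length_reverse]; omega)
        rw [e3] at h1
        have h2 := M.zc_inj h1.symm hz
        simp only [Sigma.mk.injEq, heq_eq_eq, true_and] at h2
        rw [← h2]
        simp only [hST, List.reverse_cons]
        rw [List.getElem_append_right (by simp [hTl])]
        simp
      subst e4
      have t0 : tok (M.vdead B) R 0 (vals 0) = M.cc (g (some γ')) :=
        hT (y := (0, M.cc c, M.cc (g (some γ')))) (by rw [← hR']; simp)
      have t1 : tok (M.vdead B) R (1 + M.kc k0) (vals (1 + M.kc k0)) = cond b d (d + 1) :=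
        hT (y := (1 + M.kc k0, d + 1, cond b d (d + 1))) (by rw [← hR']; simp)
      have hn : ∀ t, t ≠ 0 → t ≠ 1 + M.kc k0 →
          tok (M.vdead B) R t (vals t) = vals t := by
        intro t ht ht1
        by_cases ht2 : t = M.cell B k0 d
        · subst ht2
          rw [hT (y := (M.cell B k0 d, M.zc ⟨k0, γ'⟩, M.zc ⟨k0, γ'⟩)) (by rw [← hR']; simp), e3]
        · apply hN
          intro y hy
          rw [← hR'] at hy
          simp only [List.mem_cons, List.not_mem_nil, or_false] at hy
          rcases hy with rfl | rfl | rfl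
          · exact fun e => ht e.symm
          · exact fun e => ht1 e.symm
          · exact fun e => ht2 e.symm
      refine ⟨g (some γ'), cond b (Function.update S k0 T) S, ?_, ?_⟩
      · unfold step1
        simp only [hop, hST, List.head?_cons, List.tail_cons]
      · cases b with
        | false =>
          constructor
          · exact t0
          · intro k
            show tok _ _ _ _ = _
            by_cases hk : k = k0
            · subst hk
              rw [t1]
              exact e2.symm
            · rw [hn _ (by omega) (fun e => hk (M.kc_inj (by omega)))]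
              exact h.hgt k
          · exact h.len
          · intro k j hj
            show tok _ _ _ _ = _
            rw [hn _ M.cell_ne_zero M.cell_ne_hgt]
            exact h.cel k j hj
          · intro k j hj
            show tok _ _ _ _ ≤ _
            rw [hn _ M.cell_ne_zero M.cell_ne_hgt]
            exact h.bnd k j hj
        | true =>
          simp only [cond_true]
          constructor
          · exact t0
          · intro k
            show tok _ _ _ _ = _
            by_cases hk : k = k0
            · subst hk
              rw [t1, Function.update_self, hTl]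
              rfl
            · rw [hn _ (by omega) (fun e => hk (M.kc_inj (by omega))), Function.update_of_ne hk]
              exact h.hgt k
          · intro k
            by_cases hk : k = k0
            · subst hk
              rw [Function.update_self]
              omega
            · rw [Function.update_of_ne hk]
              exact h.len k
          · intro k j hj
            show tok _ _ _ _ = _
            rw [hn _ M.cell_ne_zero M.cell_ne_hgt]
            by_cases hk : k = k0
            · subst hk
              have hj' := hj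
              rw [Function.update_self, List.length_reverse] at hj'
              rw [h.cel k j (by rw [List.length_reverse]; omega)]
              congr 2
              simp only [Function.update_self, hST, List.reverse_cons]
              rw [List.getElem_append_left (by simpa using hj')]
            · have hj' := hj
              rw [Function.update_of_ne hk] at hj'
              rw [h.cel k j hj']
              congr 2
              simp only [Function.update_of_ne hk]
          · intro k j hj
            show tok _ _ _ _ ≤ _
            rw [hn _ M.cell_ne_zero M.cell_ne_hgt]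
            exact h.bnd k j hj

theorem exists_rule {B : ℕ} {vals : ℕ → ℕ} {c : M.C} {S : ∀ k, List (M.Γ k)}
    (h : M.Rep B vals c S) (hS : ∀ k, ∀ γ ∈ S k, (⟨k, γ⟩ : Σ k, M.Γ k) ∈ M.LG)
    {c' : M.C} {S' : ∀ k, List (M.Γ k)} (hs : M.step1 (c, S) = some (c', S'))
    (hl : ∀ k, (S' k).length ≤ B) :
    ∃ R ∈ M.rules1 B c, ∀ y ∈ R, vals y.1 = y.2.1 := by
  unfold step1 at hs
  unfold rules1
  split at hs
  · cases hs
  · rename_i c1 hop
    simp only at hop
    simp only [hop]
    refine ⟨_, List.mem_singleton.2 rfl, ?_⟩
    intro y hy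
    rw [List.mem_singleton] at hy
    subst hy
    exact h.ctl
  · rename_i k γ c1 hop
    simp only at hop
    simp only [hop]
    simp only [Option.some.injEq, Prod.mk.injEq] at hs
    obtain ⟨rfl, rfl⟩ := hs
    have h1 := hl k
    rw [Function.update_self, List.length_cons] at h1
    refine ⟨[(0, M.cc c, M.cc c1), (1 + M.kc k, (S k).length, (S k).length + 1),
      (M.cell B k (S k).length, vals (M.cell B k (S k).length), M.zc ⟨k, γ⟩)], ?_, ?_⟩
    · rw [List.mem_flatMap]
      refine ⟨(S k).length, by rw [List.mem_range]; omega, ?_⟩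
      rw [List.mem_map]
      refine ⟨vals (M.cell B k (S k).length), ?_, rfl⟩
      rw [List.mem_range]
      have := h.bnd k (S k).length (by omega)
      omega
    · intro y hy
      simp only [List.mem_cons, List.not_mem_nil, or_false] at hy
      rcases hy with rfl | rfl | rfl
      · exact h.ctl
      · exact h.hgt k
      · rfl
  · rename_i k b g hop
    simp only at hop
    simp only [hop]
    cases hST : S k with
    | nil =>
      refine ⟨_, List.mem_cons_self, ?_⟩
      intro y hy
      simp only [List.mem_cons, List.not_mem_nil, or_false] at hy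
      rcases hy with rfl | rfl
      · exact h.ctl
      · show vals (1 + M.kc k) = 0
        rw [h.hgt k, hST]
        rfl
    | cons γ T =>
      have hγ : (⟨k, γ⟩ : Σ k, M.Γ k) ∈ M.LG := hS k γ (by rw [hST]; exact List.mem_cons_self)
      have hlen := h.len k
      rw [hST, List.length_cons] at hlen
      refine ⟨[(0, M.cc c, M.cc (g (some γ))), (1 + M.kc k, T.length + 1,
        cond b T.length (T.length + 1)), (M.cell B k T.length, M.zc ⟨k, γ⟩, M.zc ⟨k, γ⟩)], ?_, ?_⟩
      · refine List.mem_cons_of_mem _ ?_
        rw [List.mem_flatMap]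
        refine ⟨⟨k, γ⟩, hγ, ?_⟩
        rw [dif_pos rfl, List.mem_map]
        exact ⟨T.length, by rw [List.mem_range]; omega, rfl⟩
      · intro y hy
        simp only [List.mem_cons, List.not_mem_nil, or_false] at hy
        rcases hy with rfl | rfl | rfl
        · exact h.ctl
        · show vals (1 + M.kc k) = _
          rw [h.hgt k, hST]
          rfl
        · show vals (M.cell B k T.length) = _
          rw [h.cel k T.length (by rw [List.length_reverse, hST]; simp)]
          congr 2
          simp only [hST, List.reverse_cons]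
          rw [List.getElem_append_right (by simp)]
          simp

theorem rules1_lt {B : ℕ} {c : M.C} {R : Rule} (hR : R ∈ M.rules1 B c) :
    ∀ y ∈ R, y.1 < M.ntok B := by
  have h0 : 0 < M.ntok B := by unfold ntok; omega
  unfold rules1 at hR
  split at hR
  · simp at hR
  · simp only [List.mem_singleton] at hR
    subst hR
    intro y hy
    simp only [List.mem_singleton] at hy
    subst hy
    exact h0
  · simp only [List.mem_flatMap, List.mem_range, List.mem_map] at hR
    obtain ⟨h, hh, g', hg', rfl⟩ := hR
    intro y hy
    simp only [List.mem_cons, List.not_mem_nil, or_false] at hy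
    rcases hy with rfl | rfl | rfl
    · exact h0
    · exact M.hgt_lt
    · exact M.cell_lt hh
  · rename_i k b g hop
    rw [List.mem_cons] at hR
    rcases hR with rfl | hR
    · intro y hy
      simp only [List.mem_cons, List.not_mem_nil, or_false] at hy
      rcases hy with rfl | rfl
      · exact h0
      · exact M.hgt_lt
    · simp only [List.mem_flatMap] at hR
      obtain ⟨z, hz, hR⟩ := hR
      by_cases e : z.1 = k
      rotate_left
      · rw [dif_neg e] at hR
        simp at hR
      rw [dif_pos e] at hR
      simp only [List.mem_map, List.mem_range] at hR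
      obtain ⟨h, hh, rfl⟩ := hR
      intro y hy
      simp only [List.mem_cons, List.not_mem_nil, or_false] at hy
      rcases hy with rfl | rfl | rfl
      · exact h0
      · exact M.hgt_lt
      · exact M.cell_lt hh

/-- All rules. -/
noncomputable def rules (M : SM) (B : ℕ) : List Rule := M.LC.flatMap (M.rules1 B)

theorem foldl_dead (V t : ℕ) (w : List Rule) : w.foldl (fun v R => tok V R t v) V = V := by
  induction w with
  | nil => rfl
  | cons R w ih => rw [List.foldl_cons, tok_dead, ih]

theorem sound {B : ℕ} (w : List Rule) (hw : ∀ R ∈ w, R ∈ M.rules B) (vals : ℕ → ℕ) (c : M.C)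
    (S : ∀ k, List (M.Γ k)) (h : M.Rep B vals c S)
    (hd : ∀ t < M.ntok B, w.foldl (fun v R => tok (M.vdead B) R t v) (vals t) ≠ M.vdead B) :
    ∃ c' S', Relation.ReflTransGen (fun a b => M.step1 a = some b) (c, S) (c', S') ∧
      M.Rep B (fun t => w.foldl (fun v R => tok (M.vdead B) R t v) (vals t)) c' S' := by
  induction w generalizing vals c S with
  | nil => exact ⟨c, S, Relation.ReflTransGen.refl, h⟩
  | cons R w ih =>
    have hR := hw R List.mem_cons_self
    unfold rules at hR
    rw [List.mem_flatMap] at hR
    obtain ⟨c0, hc0, hR⟩ := hR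
    have hf : ∀ y ∈ R, vals y.1 = y.2.1 := by
      intro y hy
      have h1 := hd y.1 (rules1_lt hR y hy)
      rw [List.foldl_cons] at h1
      by_contra hne
      by_cases hv : vals y.1 = M.vdead B
      · rw [hv, tok_dead, foldl_dead] at h1
        exact h1 rfl
      · rw [tok_of_mem (rules1_pairwise hR) hy hv, if_neg hne, foldl_dead] at h1
        exact h1 rfl
    obtain ⟨c1, S1, hs, hrep⟩ := fire h hc0 hR hf
    obtain ⟨c', S', hr, hrep'⟩ := ih (fun R' hR' => hw R' (List.mem_cons_of_mem _ hR')) _ c1 S1 hrep
      (by
        intro t ht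
        have := hd t ht
        rwa [List.foldl_cons] at this)
    exact ⟨c', S', Relation.ReflTransGen.head hs hr, hrep'⟩

/-- Good configurations. -/
structure Good (M : SM) (x : M.C × (∀ k, List (M.Γ k))) : Prop where
  ctl : x.1 ∈ M.LC
  sym : ∀ k, ∀ γ ∈ x.2 k, (⟨k, γ⟩ : Σ k, M.Γ k) ∈ M.LG

theorem Good.step {x y : M.C × (∀ k, List (M.Γ k))} (h : M.Good x) (hs : M.step1 x = some y) :
    M.Good y := by
  unfold step1 at hs
  split at hs
  · cases hs
  · rename_i c1 hop
    cases hs
    exact ⟨M.hmove _ h.ctl _ hop, h.sym⟩
  · rename_i k γ c1 hop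
    cases hs
    obtain ⟨h1, h2⟩ := M.hpush _ h.ctl _ _ _ hop
    refine ⟨h1, ?_⟩
    intro k' γ' hγ'
    by_cases hk : k' = k
    · subst hk
      simp only [Function.update_self, List.mem_cons] at hγ'
      rcases hγ' with rfl | hγ'
      · exact h2
      · exact h.sym _ _ hγ'
    · simp only [Function.update_of_ne hk] at hγ'
      exact h.sym _ _ hγ'
  · rename_i k b g hop
    cases hs
    refine ⟨M.hlook _ h.ctl _ _ _ hop _, ?_⟩
    intro k' γ' hγ'
    cases b with
    | false => exact h.sym _ _ hγ'
    | true =>
      simp only [cond_true] at hγ'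
      by_cases hk : k' = k
      · subst hk
        simp only [Function.update_self] at hγ'
        exact h.sym _ _ (List.mem_of_mem_tail hγ')
      · simp only [Function.update_of_ne hk] at hγ'
        exact h.sym _ _ hγ'

/-- A step to a configuration whose stacks have height at most `B`. -/
def MS (M : SM) (B : ℕ) (x y : M.C × (∀ k, List (M.Γ k))) : Prop :=
  M.step1 x = some y ∧ ∀ k, (y.2 k).length ≤ B

theorem complete {B : ℕ} {x y : M.C × (∀ k, List (M.Γ k))}
    (hxy : Relation.ReflTransGen (M.MS B) x y) (vals : ℕ → ℕ) (h : M.Rep B vals x.1 x.2)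
    (hg : M.Good x) :
    M.Good y ∧ ∃ w : List Rule, (∀ R ∈ w, R ∈ M.rules B) ∧
      M.Rep B (fun t => w.foldl (fun v R => tok (M.vdead B) R t v) (vals t)) y.1 y.2 := by
  induction hxy with
  | refl => exact ⟨hg, [], by simp, h⟩
  | @tail y z _ hyz ih =>
    obtain ⟨gy, w, hw, hrep⟩ := ih
    refine ⟨gy.step hyz.1, ?_⟩
    obtain ⟨R, hR, hf⟩ := exists_rule hrep gy.sym (c' := z.1) (S' := z.2) hyz.1 hyz.2
    obtain ⟨c', S', hs, hrep'⟩ := fire hrep gy.ctl hR hf
    have e : (c', S') = z := by
      have h1 : M.step1 y = some z := hyz.1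
      have h2 : M.step1 y = some (c', S') := hs
      rw [h1] at h2
      exact (Option.some.inj h2).symm
    refine ⟨w ++ [R], ?_, ?_⟩
    · intro R' hR'
      rw [List.mem_append, List.mem_singleton] at hR'
      rcases hR' with hR' | rfl
      · exact hw _ hR'
      · unfold rules
        rw [List.mem_flatMap]
        exact ⟨_, gy.ctl, hR⟩
    · rw [← e]
      simpa only [List.foldl_append, List.foldl_cons, List.foldl_nil] using hrep'

/-- The rule system. -/
noncomputable def rs (M : SM) (B : ℕ) (iv : ℕ → ℕ) (cf : M.C) (kf : M.K) (γf : M.Γ kf) : RS :=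
  (M.vdead B, (List.range (M.ntok B)).map iv, M.rules B,
    [(0, M.cc cf), (1 + M.kc kf, 1), (M.cell B kf 0, M.zc ⟨kf, γf⟩)])

theorem Rep.lt {B : ℕ} {vals : ℕ → ℕ} {c : M.C} {S : ∀ k, List (M.Γ k)}
    (h : M.Rep B vals c S) {t : ℕ} (ht : t < M.ntok B) : vals t < M.vdead B := by
  unfold ntok at ht
  unfold vdead
  by_cases h0 : t = 0
  · subst h0
    rw [h.ctl]
    have := M.cc_le c
    omega
  by_cases h1 : t < 1 + Fintype.card M.K
  · have h2 : t - 1 < Fintype.card M.K := by omega
    have h3 : M.kc ((Fintype.equivFin M.K).symm ⟨t - 1, h2⟩) = t - 1 := by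
      unfold kc
      rw [Equiv.apply_symm_apply]
    have h4 := h.hgt ((Fintype.equivFin M.K).symm ⟨t - 1, h2⟩)
    have h5 := h.len ((Fintype.equivFin M.K).symm ⟨t - 1, h2⟩)
    rw [h3, show 1 + (t - 1) = t by omega] at h4
    omega
  · have hB : 0 < B := by
      by_contra hB
      have : B = 0 := by omega
      subst this
      omega
    have h2 : (t - (1 + Fintype.card M.K)) / B < Fintype.card M.K := by
      rw [Nat.div_lt_iff_lt_mul hB]
      omega
    have h3 : M.kc ((Fintype.equivFin M.K).symm ⟨_, h2⟩) = (t - (1 + Fintype.card M.K)) / B := by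
      unfold kc
      rw [Equiv.apply_symm_apply]
    have h4 := h.bnd ((Fintype.equivFin M.K).symm ⟨_, h2⟩) ((t - (1 + Fintype.card M.K)) % B)
      (Nat.mod_lt _ hB)
    have h5 : M.cell B ((Fintype.equivFin M.K).symm ⟨_, h2⟩) ((t - (1 + Fintype.card M.K)) % B)
        = t := by
      unfold cell
      rw [h3]
      have := Nat.div_add_mod (t - (1 + Fintype.card M.K)) B
      rw [Nat.mul_comm] at this
      omega
    rw [h5] at h4
    omega

theorem rs_sound {B : ℕ} (hB : 0 < B) {iv : ℕ → ℕ} {c0 : M.C} {S0 : ∀ k, List (M.Γ k)}
    (h : M.Rep B iv c0 S0) {cf : M.C} {kf : M.K} {γf : M.Γ kf} (hcf : cf ∈ M.LC)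
    (hγf : (⟨kf, γf⟩ : Σ k, M.Γ k) ∈ M.LG) (hy : RSyes (M.rs B iv cf kf γf)) :
    ∃ S', Relation.ReflTransGen (fun a b => M.step1 a = some b) (c0, S0) (cf, S') ∧
      S' kf = [γf] := by
  obtain ⟨w, hw, hok⟩ := hy
  have hok' : ∀ t < M.ntok B, okf (M.vdead B)
      [(0, M.cc cf), (1 + M.kc kf, 1), (M.cell B kf 0, M.zc ⟨kf, γf⟩)] t
      (w.foldl (fun v R => tok (M.vdead B) R t v) (iv t)) = true := by
    intro t ht
    have := hok t (by simpa [rs] using ht)
    simp only [rs] at this
    rw [List.getD_eq_getElem _ _ (by simpa using ht)] at this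
    simpa using this
  obtain ⟨c', S', hr, hrep⟩ := sound w hw iv c0 S0 h (by
    intro t ht
    have := hok' t ht
    unfold okf at this
    rw [Bool.and_eq_true, decide_eq_true_eq] at this
    exact this.1)
  have e0 : c' = cf := by
    have h1 := hok' 0 (by unfold ntok; omega)
    unfold okf at h1
    rw [Bool.and_eq_true] at h1
    have h2 := h1.2
    simp only [List.filter_cons, decide_true, if_true, List.head?_cons, decide_eq_true_eq] at h2
    have h3 := hrep.ctl
    rw [h2] at h3
    exact M.cc_inj h3.symm hcf
  subst e0
  refine ⟨S', hr, ?_⟩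
  have n1 : ¬ ((0 : ℕ) = 1 + M.kc kf) := by omega
  have e1 : (S' kf).length = 1 := by
    have h1 := hok' (1 + M.kc kf) M.hgt_lt
    unfold okf at h1
    rw [Bool.and_eq_true] at h1
    have h2 := h1.2
    rw [← hrep.hgt kf]
    simpa only [List.filter_cons, n1, decide_true, decide_false, if_true, List.head?_cons,
      decide_eq_true_eq, Bool.false_eq_true, if_false] using h2
  have e2 : ∃ γ, S' kf = [γ] := List.length_eq_one_iff.1 e1
  obtain ⟨γ, hγ⟩ := e2
  have h1 := hok' (M.cell B kf 0) (M.cell_lt hB)
  unfold okf at h1
  rw [Bool.and_eq_true] at h1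
  have h2 := h1.2
  have n2 : ¬ ((0 : ℕ) = M.cell B kf 0) := fun e => M.cell_ne_zero e.symm
  have n3 : ¬ (1 + M.kc kf = M.cell B kf 0) := fun e => M.cell_ne_hgt e.symm
  simp only [List.filter_cons, n2, n3, decide_true, decide_false, if_true, List.head?_cons,
    decide_eq_true_eq, Bool.false_eq_true, if_false] at h2
  have h3 := hrep.cel kf 0 (by simp [hγ])
  rw [h2] at h3
  have h4 := M.zc_inj h3.symm hγf
  simp only [Sigma.mk.injEq, heq_eq_eq, true_and] at h4
  rw [hγ, ← h4]
  simp [hγ]

theorem rs_complete {B : ℕ} {iv : ℕ → ℕ} {c0 : M.C} {S0 : ∀ k, List (M.Γ k)}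
    (h : M.Rep B iv c0 S0) (hg : M.Good (c0, S0)) {cf : M.C} {kf : M.K} {γf : M.Γ kf}
    {S' : ∀ k, List (M.Γ k)} (hr : Relation.ReflTransGen (M.MS B) (c0, S0) (cf, S'))
    (hS : S' kf = [γf]) : RSyes (M.rs B iv cf kf γf) := by
  obtain ⟨_, w, hw, hrep⟩ := complete hr iv h hg
  refine ⟨w, hw, ?_⟩
  intro t ht
  have ht' : t < M.ntok B := by simpa [rs] using ht
  simp only [rs]
  rw [List.getD_eq_getElem _ _ (by simpa using ht')]
  simp only [List.getElem_map, List.getElem_range]
  have hlt := hrep.lt ht'
  unfold okf
  rw [Bool.and_eq_true, decide_eq_true_eq]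
  refine ⟨Nat.ne_of_lt hlt, ?_⟩
  by_cases t0 : t = 0
  · subst t0
    simp only [List.filter_cons, decide_true, if_true, List.head?_cons, decide_eq_true_eq]
    exact hrep.ctl
  by_cases t1 : t = 1 + M.kc kf
  · subst t1
    have n0 : ¬ ((0 : ℕ) = 1 + M.kc kf) := by omega
    simp only [List.filter_cons, n0, decide_true, decide_false, if_true, List.head?_cons,
      decide_eq_true_eq, Bool.false_eq_true, if_false]
    have := hrep.hgt kf
    have e : ((cf, S').2 kf).length = 1 := by
      show (S' kf).length = 1
      rw [hS]
      rfl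
    rw [e] at this
    exact this
  by_cases t2 : t = M.cell B kf 0
  · subst t2
    have n2 : ¬ ((0 : ℕ) = M.cell B kf 0) := fun e => M.cell_ne_zero e.symm
    have n3 : ¬ (1 + M.kc kf = M.cell B kf 0) := fun e => M.cell_ne_hgt e.symm
    simp only [List.filter_cons, n2, n3, decide_true, decide_false, if_true, List.head?_cons,
      decide_eq_true_eq, Bool.false_eq_true, if_false]
    refine (hrep.cel kf 0 (by simp [hS])).trans ?_
    congr 2
    simp [hS]
  · have n1 : ¬ (0 = t) := fun e => t0 e.symm
    have n2 : ¬ (1 + M.kc kf = t) := fun e => t1 e.symm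
    have n3 : ¬ (M.cell B kf 0 = t) := fun e => t2 e.symm
    simp only [List.filter_cons, n1, n2, n3, decide_false, Bool.false_eq_true, if_false,
      List.filter_nil, List.head?_nil]

theorem new_le_vdead {B : ℕ} {c : M.C} {R : Rule} (hR : R ∈ M.rules1 B c) :
    ∀ y ∈ R, y.2.2 ≤ M.vdead B := by
  unfold rules1 at hR
  split at hR
  · simp at hR
  · rename_i c' hop
    simp only [List.mem_singleton] at hR
    subst hR
    intro y hy
    simp only [List.mem_singleton] at hy
    subst hy
    have hc := M.cc_le c'
    show M.cc c' ≤ _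
    unfold vdead
    omega
  · rename_i k γ c' hop
    simp only [List.mem_flatMap, List.mem_range, List.mem_map] at hR
    obtain ⟨h, hh, g', hg', rfl⟩ := hR
    intro y hy
    have hc := M.cc_le c'
    have hz := M.zc_le ⟨k, γ⟩
    simp only [List.mem_cons, List.not_mem_nil, or_false] at hy
    rcases hy with rfl | rfl | rfl <;> simp only [vdead] <;> omega
  · rename_i k b g hop
    rw [List.mem_cons] at hR
    rcases hR with rfl | hR
    · intro y hy
      have hc := M.cc_le (g none)
      simp only [List.mem_cons, List.not_mem_nil, or_false] at hy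
      rcases hy with rfl | rfl <;> simp only [vdead] <;> omega
    · simp only [List.mem_flatMap] at hR
      obtain ⟨z, hz, hR⟩ := hR
      by_cases e : z.1 = k
      rotate_left
      · rw [dif_neg e] at hR
        simp at hR
      rw [dif_pos e] at hR
      simp only [List.mem_map, List.mem_range] at hR
      obtain ⟨h, hh, rfl⟩ := hR
      intro y hy
      have := M.zc_le z
      have hc := M.cc_le (g (some (e ▸ z.2)))
      simp only [List.mem_cons, List.not_mem_nil, or_false] at hy
      rcases hy with rfl | rfl | rfl
      · simp only [vdead]; omega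
      · cases b <;> simp only [vdead, cond_true, cond_false] <;> omega
      · simp only [vdead]; omega

theorem rs_wf {B : ℕ} {iv : ℕ → ℕ} {c0 : M.C} {S0 : ∀ k, List (M.Γ k)}
    (h : M.Rep B iv c0 S0) {cf : M.C} {kf : M.K} {γf : M.Γ kf} : RSwf (M.rs B iv cf kf γf) := by
  constructor
  · intro v hv
    simp only [rs, List.mem_map, List.mem_range] at hv
    obtain ⟨t, ht, rfl⟩ := hv
    exact h.lt ht
  · intro R hR
    simp only [rs, rules, List.mem_flatMap] at hR
    obtain ⟨c, _, hR⟩ := hR
    exact new_le_vdead hR

end SM

end Pool.Agent.H623R2.PS
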