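import Pool.Agent.H623R2.PS.Stack
import Pool.Agent.H623R2.PS.RulesPoly

/-!
# The rule system of a stack machine is polynomial-time computable
-/

namespace Pool.Agent.H623R2.PS

open Pool.Agent.NPC

variable {α β γ : Type} [TEnc α] [TEnc β]

theorem poly_flatMap_const (L : List γ) (F : γ → α → List β) (hF : ∀ c, NPC.Poly (F c)) :
    NPC.Poly (fun x => L.flatMap fun c => F c x) := by
  induction L with
  | nil => exact NPC.Poly.const []
  | cons c L ih =>
    simp only [List.flatMap_cons]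
    exact NPC.Poly.append (hF c) ih

namespace SM

variable {M : SM}

theorem poly_cell (k : M.K) {B j : α → ℕ} (hB : NPC.Poly B) (hj : NPC.Poly j) :
    NPC.Poly (fun x => M.cell (B x) k (j x)) := by
  unfold cell
  exact NPC.Poly.add (NPC.Poly.const _) (NPC.Poly.add (NPC.Poly.mul (NPC.Poly.const _) hB) hj)

theorem poly_rule3 {a1 a2 a3 b1 b2 b3 c1 c2 c3 : α → ℕ} (ha1 : NPC.Poly a1) (ha2 : NPC.Poly a2)
    (ha3 : NPC.Poly a3) (hb1 : NPC.Poly b1) (hb2 : NPC.Poly b2) (hb3 : NPC.Poly b3)
    (hc1 : NPC.Poly c1) (hc2 : NPC.Poly c2) (hc3 : NPC.Poly c3) :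
    NPC.Poly (fun x => [(a1 x, a2 x, a3 x), (b1 x, b2 x, b3 x), (c1 x, c2 x, c3 x)]) :=
  NPC.Poly.cons (NPC.Poly.pair ha1 (NPC.Poly.pair ha2 ha3))
    (NPC.Poly.cons (NPC.Poly.pair hb1 (NPC.Poly.pair hb2 hb3))
      (NPC.Poly.cons (NPC.Poly.pair hc1 (NPC.Poly.pair hc2 hc3)) (NPC.Poly.const [])))

theorem poly_rules1 (c : M.C) {B : α → ℕ} (hB : UPoly B) :
    NPC.Poly (fun x => M.rules1 (B x) c) := by
  unfold rules1
  cases M.op c with
  | stop => exact NPC.Poly.const _
  | move c' => exact NPC.Poly.const _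
  | push k γ c' =>
    refine NPC.Poly.flatMap (F := fun x h => (List.range (M.LG.length + 1)).map fun g' =>
      [(0, M.cc c, M.cc c'), (1 + M.kc k, h, h + 1), (M.cell (B x) k h, g', M.zc ⟨k, γ⟩)])
      hB.range ?_
    refine NPC.Poly.map (F := fun (p : α × ℕ) g' =>
      [(0, M.cc c, M.cc c'), (1 + M.kc k, p.2, p.2 + 1),
        (M.cell (B p.1) k p.2, g', M.zc ⟨k, γ⟩)]) (NPC.Poly.const _) ?_
    have hb : NPC.Poly (fun p : (α × ℕ) × ℕ => B p.1.1) :=
      hB.toPoly.comp (NPC.Poly.fst (NPC.Poly.fst NPC.Poly.id))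
    have hh : NPC.Poly (fun p : (α × ℕ) × ℕ => p.1.2) := NPC.Poly.snd (NPC.Poly.fst NPC.Poly.id)
    have hg : NPC.Poly (fun p : (α × ℕ) × ℕ => p.2) := NPC.Poly.snd NPC.Poly.id
    exact poly_rule3 (NPC.Poly.const _) (NPC.Poly.const _) (NPC.Poly.const _) (NPC.Poly.const _) hh
      (NPC.Poly.add hh (NPC.Poly.const 1)) (poly_cell k hb hh) hg (NPC.Poly.const _)
  | look k b g =>
    refine NPC.Poly.cons (NPC.Poly.const _) ?_
    refine poly_flatMap_const M.LG (fun z x => if e : z.1 = k then (List.range (B x)).map fun h =>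
        [(0, M.cc c, M.cc (g (some (e ▸ z.2)))), (1 + M.kc k, h + 1, _root_.cond b h (h + 1)),
          (M.cell (B x) k h, M.zc z, M.zc z)] else []) ?_
    intro z
    by_cases e : z.1 = k
    rotate_left
    · simp only [dif_neg e]
      exact NPC.Poly.const _
    simp only [dif_pos e]
    refine NPC.Poly.map (F := fun x h =>
        [(0, M.cc c, M.cc (g (some (e ▸ z.2)))), (1 + M.kc k, h + 1, _root_.cond b h (h + 1)),
          (M.cell (B x) k h, M.zc z, M.zc z)]) hB.range ?_
    have hb : NPC.Poly (fun p : α × ℕ => B p.1) := hB.toPoly.comp (NPC.Poly.fst NPC.Poly.id)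
    have hh : NPC.Poly (fun p : α × ℕ => p.2) := NPC.Poly.snd NPC.Poly.id
    have hh1 := NPC.Poly.add hh (NPC.Poly.const 1)
    refine poly_rule3 (NPC.Poly.const _) (NPC.Poly.const _) (NPC.Poly.const _) (NPC.Poly.const _)
      hh1 ?_ (poly_cell k hb hh) (NPC.Poly.const _) (NPC.Poly.const _)
    cases b
    · exact hh1
    · exact hh

theorem uPoly_ntok {B : α → ℕ} (hB : UPoly B) : UPoly (fun x => M.ntok (B x)) := by
  unfold ntok
  exact UPoly.add (UPoly.const _) (UPoly.mul (UPoly.const _) hB)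

theorem uPoly_vdead {B : α → ℕ} (hB : UPoly B) : UPoly (fun x => M.vdead (B x)) := by
  unfold vdead
  exact UPoly.add (UPoly.add (UPoly.const _) hB) (UPoly.const 1)

theorem poly_rs {B : α → ℕ} (hB : UPoly B) {iv : α → ℕ → ℕ}
    (hiv : NPC.Poly (fun p : α × ℕ => iv p.1 p.2)) (cf : M.C) (kf : M.K) (γf : M.Γ kf) :
    NPC.Poly (fun x => M.rs (B x) (iv x) cf kf γf) := by
  unfold rs rules
  refine NPC.Poly.pair (uPoly_vdead hB).toPoly (NPC.Poly.pair ?_ (NPC.Poly.pair ?_ ?_))
  · exact NPC.Poly.map (F := fun x t => iv x t) (uPoly_ntok hB).range hiv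
  · exact poly_flatMap_const M.LC (fun c x => M.rules1 (B x) c) fun c => poly_rules1 c hB
  · exact NPC.Poly.cons (NPC.Poly.const _) (NPC.Poly.cons (NPC.Poly.const _)
      (NPC.Poly.cons (NPC.Poly.pair (poly_cell kf hB.toPoly (NPC.Poly.const 0)) (NPC.Poly.const _))
        (NPC.Poly.const [])))

/-- The initial values of the tokens, for the input `x` on the stack `k0`. -/
noncomputable def iv (M : SM) (c0 : M.C) (k0 : M.K) (al : Bool → M.Γ k0) (B : ℕ)
    (x : List Bool) (t : ℕ) : ℕ :=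
  if t = 0 then M.cc c0
  else if t < 1 + Fintype.card M.K then (if t = 1 + M.kc k0 then x.length else 0)
  else if (t - (1 + Fintype.card M.K)) / B = M.kc k0 ∧
      (t - (1 + Fintype.card M.K)) % B < x.length then
    (if x.getD (x.length - 1 - (t - (1 + Fintype.card M.K)) % B) false = true then
      M.zc ⟨k0, al true⟩ else M.zc ⟨k0, al false⟩)
  else 0

theorem rep_iv (c0 : M.C) (k0 : M.K) (al : Bool → M.Γ k0) {B : ℕ}
    {x : List Bool} (hx : x.length ≤ B) (hB : 0 < B) {S0 : ∀ k, List (M.Γ k)}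
    (h0 : S0 k0 = x.map al) (h1 : ∀ k, k ≠ k0 → S0 k = []) :
    M.Rep B (M.iv c0 k0 al B x) c0 S0 := by
  have hcd : ∀ (k : M.K) (j : ℕ), j < B → M.iv c0 k0 al B x (M.cell B k j) =
      if M.kc k = M.kc k0 ∧ j < x.length then
      (if x.getD (x.length - 1 - j) false = true then
        M.zc ⟨k0, al true⟩ else M.zc ⟨k0, al false⟩)
      else 0 := by
    intro k j hj
    have e1 : M.cell B k j - (1 + Fintype.card M.K) = M.kc k * B + j := by
      unfold SM.cell
      omega
    have e2 : (M.kc k * B + j) / B = M.kc k := by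
      rw [Nat.add_comm, Nat.add_mul_div_right _ _ (by omega), Nat.div_eq_of_lt hj, Nat.zero_add]
    have e3 : (M.kc k * B + j) % B = j := by
      rw [Nat.add_comm, Nat.add_mul_mod_self_right, Nat.mod_eq_of_lt hj]
    have e4 : ¬ (M.cell B k j < 1 + Fintype.card M.K) := by
      unfold SM.cell
      omega
    unfold iv
    rw [if_neg M.cell_ne_zero, if_neg e4, e1, e2, e3]
  constructor
  · unfold iv
    rw [if_pos rfl]
  · intro k
    have h2 : ¬ (1 + M.kc k = 0) := by omega
    have h3 := M.kc_lt k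
    unfold iv
    rw [if_neg h2, if_pos (by omega)]
    by_cases hk : k = k0
    · subst hk
      rw [if_pos rfl, h0, List.length_map]
    · rw [if_neg (fun e => hk (M.kc_inj (by omega))), h1 k hk]
      rfl
  · intro k
    by_cases hk : k = k0
    · subst hk
      rw [h0, List.length_map]
      exact hx
    · rw [h1 k hk]
      exact Nat.zero_le _
  · intro k j hj
    by_cases hk : k = k0
    · subst hk
      have hj1 : j < x.length := by
        rw [List.length_reverse, h0, List.length_map] at hj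
        exact hj
      rw [hcd k j (by omega), if_pos ⟨rfl, hj1⟩]
      have e : (S0 k).reverse[j] = al (x.getD (x.length - 1 - j) false) := by
        simp only [h0]
        rw [List.getElem_reverse, List.getElem_map]
        congr 1
        rw [List.getD_eq_getElem _ _ (by omega)]
        simp only [List.length_map]
      rw [e]
      cases x.getD (x.length - 1 - j) false <;> simp
    · rw [List.length_reverse, h1 k hk] at hj
      simp at hj
  · intro k j hj
    rw [hcd k j hj]
    split_ifs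
    · exact M.zc_le _
    · exact M.zc_le _
    · exact Nat.zero_le _

theorem poly_iv (c0 : M.C) (k0 : M.K) (al : Bool → M.Γ k0) {B : List Bool → ℕ} (hB : UPoly B) :
    NPC.Poly (fun p : List Bool × ℕ => M.iv c0 k0 al (B p.1) p.1 p.2) := by
  have hx : NPC.Poly (fun p : List Bool × ℕ => p.1) := NPC.Poly.fst NPC.Poly.id
  have ht : NPC.Poly (fun p : List Bool × ℕ => p.2) := NPC.Poly.snd NPC.Poly.id
  have hb : NPC.Poly (fun p : List Bool × ℕ => B p.1) := hB.toPoly.comp hx
  have hl : NPC.Poly (fun p : List Bool × ℕ => p.1.length) := NPC.Poly.length hx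
  have hu : NPC.Poly (fun p : List Bool × ℕ => p.2 - (1 + Fintype.card M.K)) :=
    NPC.Poly.sub ht (NPC.Poly.const _)
  have hd := NPC.Poly.div hu hb
  have hm := NPC.Poly.mod hu hb
  unfold iv
  refine NPC.Poly.ite (NPC.Poly.decide_eq ht (NPC.Poly.const 0)) (NPC.Poly.const _) ?_
  refine NPC.Poly.ite (NPC.Poly.decide_lt ht (NPC.Poly.const _)) ?_ ?_
  · exact NPC.Poly.ite (NPC.Poly.decide_eq ht (NPC.Poly.const _)) hl (NPC.Poly.const 0)
  · refine NPC.Poly.ite (NPC.Poly.decide_and (NPC.Poly.decide_eq hd (NPC.Poly.const _))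
      (NPC.Poly.decide_lt hm hl)) ?_ (NPC.Poly.const 0)
    refine NPC.Poly.ite ?_ (NPC.Poly.const _) (NPC.Poly.const _)
    refine NPC.Poly.decide_eq ?_ (NPC.Poly.const true)
    exact NPC.Poly.getD hx (NPC.Poly.sub (NPC.Poly.sub hl (NPC.Poly.const 1)) hm)
      (NPC.Poly.const false)

end SM

end Pool.Agent.H623R2.PS
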