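import Pool.Agent.H623R2.PS.StackPoly

/-!
# Turing machines as stack machines
-/

namespace Pool.Agent.H623R2.PS

open Turing Pool.Agent.NPC

section Stmt

variable {K : Type} [DecidableEq K] {Γ : K → Type} {Λ σ : Type}

/-- The substatements of a statement. -/
def subs : TM2.Stmt Γ Λ σ → List (TM2.Stmt Γ Λ σ)
  | .push k f q => .push k f q :: subs q
  | .peek k f q => .peek k f q :: subs q
  | .pop k f q => .pop k f q :: subs q
  | .load a q => .load a q :: subs q
  | .branch p q1 q2 => .branch p q1 q2 :: (subs q1 ++ subs q2)
  | .goto f => [.goto f]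
  | .halt => [.halt]

omit [DecidableEq K] in
theorem self_mem_subs (s : TM2.Stmt Γ Λ σ) : s ∈ subs s := by
  cases s <;> simp [subs]

omit [DecidableEq K] in
theorem subs_trans {s s' s'' : TM2.Stmt Γ Λ σ} (h : s' ∈ subs s) (h' : s'' ∈ subs s') :
    s'' ∈ subs s := by
  induction s with
  | push k f q ih =>
    rw [subs, List.mem_cons] at h
    rcases h with rfl | h
    · exact h'
    · exact List.mem_cons_of_mem _ (ih h)
  | peek k f q ih =>
    rw [subs, List.mem_cons] at h
    rcases h with rfl | h
    · exact h'
    · exact List.mem_cons_of_mem _ (ih h)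
  | pop k f q ih =>
    rw [subs, List.mem_cons] at h
    rcases h with rfl | h
    · exact h'
    · exact List.mem_cons_of_mem _ (ih h)
  | load a q ih =>
    rw [subs, List.mem_cons] at h
    rcases h with rfl | h
    · exact h'
    · exact List.mem_cons_of_mem _ (ih h)
  | branch p q1 q2 ih1 ih2 =>
    rw [subs, List.mem_cons, List.mem_append] at h
    rcases h with rfl | h | h
    · exact h'
    · exact List.mem_cons_of_mem _ (List.mem_append_left _ (ih1 h))
    · exact List.mem_cons_of_mem _ (List.mem_append_right _ (ih2 h))
  | goto f =>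
    rw [subs, List.mem_singleton] at h
    rw [h] at h'
    exact h'
  | halt =>
    rw [subs, List.mem_singleton] at h
    rw [h] at h'
    exact h'

/-- The largest number of pushes along a branch of a statement. -/
def depth : TM2.Stmt Γ Λ σ → ℕ
  | .push _ _ q => depth q + 1
  | .peek _ _ q => depth q
  | .pop _ _ q => depth q
  | .load _ q => depth q
  | .branch _ q1 q2 => max (depth q1) (depth q2)
  | .goto _ => 0
  | .halt => 0

/-- The operation carried out at a control state. -/
def opOf (m : Λ → TM2.Stmt Γ Λ σ) : Option (TM2.Stmt Γ Λ σ) × σ → Op K Γ (Option (TM2.Stmt Γ Λ σ) × σ)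
  | (none, _) => .stop
  | (some (.push k f q), v) => .push k (f v) (some q, v)
  | (some (.peek k f q), v) => .look k false fun o => (some q, f v o)
  | (some (.pop k f q), v) => .look k true fun o => (some q, f v o)
  | (some (.load a q), v) => .move (some q, a v)
  | (some (.branch p q1 q2), v) => .move (some (cond (p v) q1 q2), v)
  | (some (.goto f), v) => .move (some (m (f v)), v)
  | (some .halt, v) => .move (none, v)

end Stmt

section Machine

variable (tm : FinTM2)

/-- All substatements of a machine. -/
noncomputable def allS : List (TM2.Stmt tm.Γ tm.Λ tm.σ) :=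
  letI := tm.ΛFin
  (Finset.univ : Finset tm.Λ).toList.flatMap fun l => subs (tm.m l)

/-- All internal states of a machine. -/
noncomputable def allV : List tm.σ :=
  letI := tm.σFin
  (Finset.univ : Finset tm.σ).toList

theorem mem_allV (v : tm.σ) : v ∈ allV tm := by
  unfold allV
  simp

theorem mem_allS_m (l : tm.Λ) : tm.m l ∈ allS tm := by
  unfold allS
  rw [List.mem_flatMap]
  exact ⟨l, by simp, self_mem_subs _⟩

theorem mem_allS {s s' : TM2.Stmt tm.Γ tm.Λ tm.σ} (h : s ∈ allS tm) (h' : s' ∈ subs s) :
    s' ∈ allS tm := by
  unfold allS at h ⊢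
  rw [List.mem_flatMap] at h ⊢
  obtain ⟨l, hl, h⟩ := h
  exact ⟨l, hl, subs_trans h h'⟩

/-- All control states of a machine. -/
noncomputable def allC : List (Option (TM2.Stmt tm.Γ tm.Λ tm.σ) × tm.σ) :=
  (none :: (allS tm).map some).flatMap fun s => (allV tm).map fun v => (s, v)

theorem mem_allC_none (v : tm.σ) : (none, v) ∈ allC tm := by
  unfold allC
  simp only [List.mem_flatMap, List.mem_map]
  exact ⟨none, List.mem_cons_self, v, mem_allV tm v, rfl⟩

theorem mem_allC_some {s : TM2.Stmt tm.Γ tm.Λ tm.σ} (v : tm.σ) :
    (some s, v) ∈ allC tm ↔ s ∈ allS tm := by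
  unfold allC
  simp only [List.mem_flatMap, List.mem_map]
  constructor
  · rintro ⟨s', hs', v', _, h⟩
    simp only [Prod.mk.injEq] at h
    obtain ⟨rfl, rfl⟩ := h
    simpa using hs'
  · intro h
    exact ⟨some s, by simpa using h, v, mem_allV tm v, rfl⟩

/-- All stack symbols which can occur. -/
noncomputable def allG (γ1 : tm.Γ tm.k₁) : List (Σ k, tm.Γ k) :=
  letI := tm.Γk₀Fin
  ⟨tm.k₁, γ1⟩ :: ((Finset.univ : Finset (tm.Γ tm.k₀)).toList.map fun γ => ⟨tm.k₀, γ⟩) ++
    (allS tm).flatMap fun s => match s with
      | .push k f _ => (allV tm).map fun v => ⟨k, f v⟩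
      | _ => []

theorem mem_allG_out (γ1 : tm.Γ tm.k₁) : (⟨tm.k₁, γ1⟩ : Σ k, tm.Γ k) ∈ allG tm γ1 := by
  unfold allG
  simp

theorem mem_allG_in (γ1 : tm.Γ tm.k₁) (γ : tm.Γ tm.k₀) :
    (⟨tm.k₀, γ⟩ : Σ k, tm.Γ k) ∈ allG tm γ1 := by
  unfold allG
  simp

theorem mem_allG_push (γ1 : tm.Γ tm.k₁) {k : tm.K} {f : tm.σ → tm.Γ k}
    {q : TM2.Stmt tm.Γ tm.Λ tm.σ} (h : .push k f q ∈ allS tm) (v : tm.σ) :
    (⟨k, f v⟩ : Σ k, tm.Γ k) ∈ allG tm γ1 := by
  unfold allG
  rw [List.mem_append]
  right
  rw [List.mem_flatMap]
  refine ⟨_, h, ?_⟩
  simp only [List.mem_map]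
  exact ⟨v, mem_allV tm v, rfl⟩

/-- The stack machine of a Turing machine. -/
noncomputable def toSM (γ1 : tm.Γ tm.k₁) : SM :=
  letI := tm.kFin
  { K := tm.K
    Γ := tm.Γ
    C := Option (TM2.Stmt tm.Γ tm.Λ tm.σ) × tm.σ
    op := opOf tm.m
    LC := allC tm
    LG := allG tm γ1
    hmove := by
      rintro ⟨s, v⟩ hs c' h
      cases s with
      | none => simp [opOf] at h
      | some s =>
        rw [mem_allC_some] at hs
        cases s with
        | push k f q => simp [opOf] at h
        | peek k f q => simp [opOf] at h
        | pop k f q => simp [opOf] at h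
        | load a q =>
          simp only [opOf, Op.move.injEq] at h
          subst h
          exact (mem_allC_some tm _).2 (mem_allS tm hs (by simp [subs, self_mem_subs]))
        | branch p q1 q2 =>
          simp only [opOf, Op.move.injEq] at h
          subst h
          rw [mem_allC_some]
          cases p v
          · exact mem_allS tm hs (by simp [subs, self_mem_subs])
          · exact mem_allS tm hs (by simp [subs, self_mem_subs])
        | goto f =>
          simp only [opOf, Op.move.injEq] at h
          subst h
          rw [mem_allC_some]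
          exact mem_allS_m tm _
        | halt =>
          simp only [opOf, Op.move.injEq] at h
          subst h
          exact mem_allC_none tm _
    hpush := by
      rintro ⟨s, v⟩ hs k γ c' h
      cases s with
      | none => simp [opOf] at h
      | some s =>
        rw [mem_allC_some] at hs
        cases s with
        | push k' f q =>
          simp only [opOf, Op.push.injEq] at h
          obtain ⟨rfl, h, rfl⟩ := h
          rw [heq_eq_eq] at h
          subst h
          exact ⟨(mem_allC_some tm _).2 (mem_allS tm hs (by simp [subs, self_mem_subs])),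
            mem_allG_push tm γ1 hs v⟩
        | peek k f q => simp [opOf] at h
        | pop k f q => simp [opOf] at h
        | load a q => simp [opOf] at h
        | branch p q1 q2 => simp [opOf] at h
        | goto f => simp [opOf] at h
        | halt => simp [opOf] at h
    hlook := by
      rintro ⟨s, v⟩ hs k b g h o
      cases s with
      | none => simp [opOf] at h
      | some s =>
        rw [mem_allC_some] at hs
        cases s with
        | push k' f q => simp [opOf] at h
        | peek k' f q =>
          simp only [opOf, Op.look.injEq] at h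
          obtain ⟨rfl, _, h⟩ := h
          rw [heq_eq_eq] at h
          subst h
          exact (mem_allC_some tm _).2 (mem_allS tm hs (by simp [subs, self_mem_subs]))
        | pop k' f q =>
          simp only [opOf, Op.look.injEq] at h
          obtain ⟨rfl, _, h⟩ := h
          rw [heq_eq_eq] at h
          subst h
          exact (mem_allC_some tm _).2 (mem_allS tm hs (by simp [subs, self_mem_subs]))
        | load a q => simp [opOf] at h
        | branch p q1 q2 => simp [opOf] at h
        | goto f => simp [opOf] at h
        | halt => simp [opOf] at h }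

/-- The configuration of the stack machine for a configuration of the Turing machine. -/
def conv (c : tm.Cfg) : (Option (TM2.Stmt tm.Γ tm.Λ tm.σ) × tm.σ) × (∀ k, List (tm.Γ k)) :=
  ((c.l.map tm.m, c.var), c.stk)

variable {tm} {γ1 : tm.Γ tm.k₁}

/-- Without a bound on the stacks. -/
theorem run_stmt {B : ℕ} (s : TM2.Stmt tm.Γ tm.Λ tm.σ) (v : tm.σ) (S : ∀ k, List (tm.Γ k))
    (hB : ∀ k, (S k).length + depth s ≤ B) :
    Relation.ReflTransGen ((toSM tm γ1).MS B) ((some s, v), S) (conv tm (TM2.stepAux s v S)) := by
  induction s generalizing v S with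
  | push k f q ih =>
    refine Relation.ReflTransGen.head ⟨rfl, ?_⟩ (ih v (Function.update S k (f v :: S k)) ?_)
    · intro (k' : tm.K)
      have h1 := hB k'
      simp only [depth] at h1
      by_cases hk : k' = k
      · subst hk
        show (Function.update S k' (f v :: S k') k').length ≤ B
        rw [Function.update_self, List.length_cons]
        omega
      · show (Function.update S k (f v :: S k) k').length ≤ B
        rw [Function.update_of_ne hk]
        omega
    · intro k'
      have h1 := hB k'
      simp only [depth] at h1
      by_cases hk : k' = k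
      · subst hk
        rw [Function.update_self, List.length_cons]
        omega
      · rw [Function.update_of_ne hk]
        omega
  | peek k f q ih =>
    refine Relation.ReflTransGen.head ⟨rfl, ?_⟩ (ih (f v (S k).head?) S hB)
    intro k'
    have h1 := hB k'
    show (S k').length ≤ B
    omega
  | pop k f q ih =>
    have hl : ∀ k', (Function.update S k (S k).tail k').length ≤ (S k').length := by
      intro k'
      by_cases hk : k' = k
      · subst hk
        rw [Function.update_self, List.length_tail]
        omega
      · rw [Function.update_of_ne hk]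
    refine Relation.ReflTransGen.head ⟨rfl, ?_⟩
      (ih (f v (S k).head?) (Function.update S k (S k).tail) ?_)
    · intro k'
      have h1 := hB k'
      have h2 := hl k'
      show (Function.update S k (S k).tail k').length ≤ B
      omega
    · intro k'
      have h1 := hB k'
      have h2 := hl k'
      simp only [depth] at h1
      omega
  | load a q ih =>
    refine Relation.ReflTransGen.head ⟨rfl, ?_⟩ (ih (a v) S hB)
    intro k'
    have h1 := hB k'
    show (S k').length ≤ B
    omega
  | branch p q1 q2 ih1 ih2 =>
    have hb : ∀ k', (S k').length ≤ B := by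
      intro k'
      have h1 := hB k'
      omega
    cases hp : p v with
    | true =>
      refine Relation.ReflTransGen.head (b := ((some q1, v), S)) ⟨?_, hb⟩ ?_
      · show some (((some (cond (p v) q1 q2), v), S)) = _
        rw [hp]
        rfl
      · have := ih1 v S (fun k => by
          have h1 := hB k
          simp only [depth] at h1
          omega)
        have e : TM2.stepAux (.branch p q1 q2) v S = TM2.stepAux q1 v S := by
          rw [TM2.stepAux, hp, cond_true]
        rw [e]
        exact this
    | false =>
      refine Relation.ReflTransGen.head (b := ((some q2, v), S)) ⟨?_, hb⟩ ?_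
      · show some (((some (cond (p v) q1 q2), v), S)) = _
        rw [hp]
        rfl
      · have := ih2 v S (fun k => by
          have h1 := hB k
          simp only [depth] at h1
          omega)
        have e : TM2.stepAux (.branch p q1 q2) v S = TM2.stepAux q2 v S := by
          rw [TM2.stepAux, hp, cond_false]
        rw [e]
        exact this
  | goto f =>
    refine Relation.ReflTransGen.single ⟨rfl, ?_⟩
    intro k'
    have h1 := hB k'
    show (S k').length ≤ B
    omega
  | halt =>
    refine Relation.ReflTransGen.single ⟨rfl, ?_⟩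
    intro k'
    have h1 := hB k'
    show (S k').length ≤ B
    omega

/-- The largest number of pushes in one step. -/
noncomputable def maxDepth (tm : FinTM2) : ℕ :=
  letI := tm.ΛFin
  (Finset.univ : Finset tm.Λ).sup fun l => depth (tm.m l)

theorem depth_le (l : tm.Λ) : depth (tm.m l) ≤ maxDepth tm := by
  let _ := tm.ΛFin
  unfold maxDepth
  exact Finset.le_sup (f := fun l => depth (tm.m l)) (Finset.mem_univ l)

theorem length_le_space (c : tm.Cfg) (k : tm.K) : (c.stk k).length ≤ space c := by
  let _ := tm.kFin
  unfold space
  exact Finset.single_le_sum (f := fun k => (c.stk k).length) (fun _ _ => Nat.zero_le _)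
    (Finset.mem_univ k)

theorem run_reaches {P : ℕ} {a b : tm.Cfg} (h : StateTransition.Reaches tm.step a b)
    (hP : ∀ c, StateTransition.Reaches tm.step a c → space c ≤ P) :
    Relation.ReflTransGen ((toSM tm γ1).MS (P + maxDepth tm + 1)) (conv tm a) (conv tm b) := by
  induction h with
  | refl => exact Relation.ReflTransGen.refl
  | @tail b c hab hbc ih =>
    refine ih.trans ?_
    have hs := hP b hab
    obtain ⟨l, v, S⟩ := b
    cases l with
    | none => cases hbc
    | some l =>
      have e : TM2.stepAux (tm.m l) v S = c := by
        have h1 : TM2.step tm.m ⟨some l, v, S⟩ = some c := hbc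
        rw [TM2.step] at h1
        exact Option.some.inj h1
      rw [← e]
      refine run_stmt (γ1 := γ1) (tm.m l) v S ?_
      intro k
      have h1 := length_le_space (tm := tm) ⟨some l, v, S⟩ k
      have h2 := depth_le (tm := tm) l
      have h3 : (S k).length ≤ space (tm := tm) ⟨some l, v, S⟩ := h1
      have h4 : space (tm := tm) ⟨some l, v, S⟩ ≤ P := hs
      omega

theorem reaches_of_iterate {τ : Type*} {f : τ → Option τ} (n : ℕ) {a b : τ}
    (h : (flip bind f)^[n] (some a) = some b) : StateTransition.Reaches f a b := by
  induction n generalizing a with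
  | zero =>
    simp only [Function.iterate_zero, id_eq, Option.some.injEq] at h
    subst h
    exact Relation.ReflTransGen.refl
  | succ n ih =>
    rw [Function.iterate_succ_apply] at h
    cases hf : f a with
    | none =>
      exfalso
      have h1 : ∀ n, (flip bind f)^[n] (none : Option τ) = none := by
        intro n
        induction n with
        | zero => rfl
        | succ n ih => rw [Function.iterate_succ_apply]; exact ih
      have h2 : flip bind f (some a) = none := hf
      rw [h2, h1] at h
      cases h
    | some c =>
      have h2 : flip bind f (some a) = some c := hf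
      rw [h2] at h
      exact Relation.ReflTransGen.head hf (ih h)

theorem initList_self (tm : FinTM2) (s : List (tm.Γ tm.k₀)) : (initList tm s).stk tm.k₀ = s := by
  simp [initList]

theorem initList_ne (tm : FinTM2) (s : List (tm.Γ tm.k₀)) {k : tm.K} (h : k ≠ tm.k₀) :
    (initList tm s).stk k = [] := by
  simp [initList, h]

theorem haltList_self (tm : FinTM2) (s : List (tm.Γ tm.k₁)) : (haltList tm s).stk tm.k₁ = s := by
  simp [haltList]

theorem rep_init (tm : FinTM2) (γ1 : tm.Γ tm.k₁) (al : Bool → tm.Γ tm.k₀) {B : ℕ}
    {x : List Bool} (hx : x.length ≤ B) (hB : 0 < B) :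
    (toSM tm γ1).Rep B (SM.iv (toSM tm γ1) (some (tm.m tm.main), tm.initialState) tm.k₀ al B x)
      (conv tm (initList tm (x.map al))).1 (conv tm (initList tm (x.map al))).2 :=
  SM.rep_iv (M := toSM tm γ1) _ tm.k₀ al hx hB (S0 := (conv tm (initList tm (x.map al))).2)
    (initList_self tm (x.map al)) (fun _ hk => initList_ne tm (x.map al) hk)

theorem good_init (tm : FinTM2) (γ1 : tm.Γ tm.k₁) (s : List (tm.Γ tm.k₀)) :
    (toSM tm γ1).Good (conv tm (initList tm s)) := by
  constructor
  · exact (mem_allC_some tm _).2 (mem_allS_m tm _)
  · intro (k : tm.K) γ hγ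
    by_cases hk : k = tm.k₀
    · subst hk
      exact mem_allG_in tm γ1 γ
    · have h1 : (conv tm (initList tm s)).2 k = [] := initList_ne tm _ hk
      have h2 : γ ∈ (conv tm (initList tm s)).2 k := hγ
      rw [h1] at h2
      cases h2

end Machine

/-- Every language in `PSPACE` reduces in polynomial time to the solvability of rule systems. -/
theorem pspace_rules {L : Set (List Bool)} (hL : InPSPACE L) :
    ∃ S : List Bool → RS, NPC.Poly S ∧ UPoly (fun x => (S x).1) ∧ (∀ x, RSwf (S x)) ∧
      ∀ x, x ∈ L ↔ RSyes (S x) := by
  obtain ⟨f, M, p, hf, hp⟩ := hL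
  set tm := M.tm with htm
  set γ1 : tm.Γ tm.k₁ := M.outputAlphabet.invFun true with hγ1
  set al : Bool → tm.Γ tm.k₀ := M.inputAlphabet.invFun with hal
  have hBpos : ∀ x : List Bool, 0 < p.eval x.length + maxDepth tm + 1 := fun x => by omega
  have hlen : ∀ x : List Bool, x.length ≤ p.eval x.length + maxDepth tm + 1 := by
    intro x
    have h1 : space (initList tm (x.map al)) ≤ p.eval x.length :=
      hp x _ Relation.ReflTransGen.refl
    have h2 := length_le_space (initList tm (x.map al)) tm.k₀
    rw [initList_self, List.length_map] at h2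
    omega
  have hU : UPoly (fun x : List Bool => p.eval x.length + maxDepth tm + 1) :=
    UPoly.add (UPoly.add (UPoly.eval (UPoly.length NPC.Poly.id) p) (UPoly.const _)) (UPoly.const _)
  have hmem : ∀ v, ((none, v) : Option (TM2.Stmt tm.Γ tm.Λ tm.σ) × tm.σ) ∈ (toSM tm γ1).LC :=
    fun v => mem_allC_none tm v
  refine ⟨fun x => (toSM tm γ1).rs (p.eval x.length + maxDepth tm + 1)
    (SM.iv (toSM tm γ1) (some (tm.m tm.main), tm.initialState) tm.k₀ al
      (p.eval x.length + maxDepth tm + 1) x) (none, tm.initialState) tm.k₁ γ1,
    SM.poly_rs hU (SM.poly_iv _ _ _ hU) _ _ _, SM.uPoly_vdead hU,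
    fun x => SM.rs_wf (rep_init tm γ1 al (hlen x) (hBpos x)), ?_⟩
  intro x
  have hrun : StateTransition.Reaches tm.step (initList tm (x.map al))
      (haltList tm [M.outputAlphabet.invFun (f x)]) := by
    have h1 := (M.outputsFun x).evals_in_steps
    exact reaches_of_iterate _ h1
  have hbig := run_reaches (γ1 := γ1) hrun (hp x)
  constructor
  · intro hx
    have hfx : f x = true := (hf x).1 hx
    refine SM.rs_complete (rep_init tm γ1 al (hlen x) (hBpos x)) (good_init tm γ1 _)
      (S' := (haltList tm [M.outputAlphabet.invFun (f x)]).stk) hbig ?_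
    have := haltList_self tm [M.outputAlphabet.invFun (f x)]
    rw [this, hfx]
    rfl
  · intro hy
    obtain ⟨S', hr, hS'⟩ := SM.rs_sound (hBpos x) (rep_init tm γ1 al (hlen x) (hBpos x))
      (hmem tm.initialState) (mem_allG_out tm γ1) hy
    have hr2 : Relation.ReflTransGen (fun a b => (toSM tm γ1).step1 a = some b)
        (conv tm (initList tm (x.map al)))
        (conv tm (haltList tm [M.outputAlphabet.invFun (f x)])) :=
      hbig.lift (fun a => a) (fun a b h => h.1)
    have huniq : Relator.RightUnique (fun a b => (toSM tm γ1).step1 a = some b) := by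
      intro a b c hb hc
      rw [hb] at hc
      exact Option.some.inj hc
    have hstop : ∀ (v : tm.σ) (S : ∀ k, List (tm.Γ k)) b,
        ¬ (toSM tm γ1).step1 ((none, v), S) = some b := by
      intro v S b hb
      cases hb
    have heq : (((none, tm.initialState), S') :
        (Option (TM2.Stmt tm.Γ tm.Λ tm.σ) × tm.σ) × (∀ k, List (tm.Γ k))) =
        conv tm (haltList tm [M.outputAlphabet.invFun (f x)]) := by
      rcases Relation.ReflTransGen.total_of_right_unique huniq hr hr2 with h | h
      · rcases Relation.ReflTransGen.cases_head h with h | ⟨c, h, _⟩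
        · exact h
        · exact absurd h (hstop _ _ _)
      · rcases Relation.ReflTransGen.cases_head h with h | ⟨c, h, _⟩
        · exact h.symm
        · exact absurd h (hstop _ _ _)
    have h1 : S' = (haltList tm [M.outputAlphabet.invFun (f x)]).stk :=
      congrArg Prod.snd heq
    have h2 : S' tm.k₁ = [M.outputAlphabet.invFun (f x)] := by
      rw [h1, haltList_self]
    rw [hS', hγ1] at h2
    have h3 : M.outputAlphabet.invFun true = M.outputAlphabet.invFun (f x) :=
      List.head_eq_of_cons_eq h2
    have h4 : true = f x := M.outputAlphabet.symm.injective h3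
    exact (hf x).2 h4.symm

/-- REACHABLE SUBSET_k is `PSPACE`-hard for every `k ≥ 2`. -/
theorem hard {k : ℕ} (hk : 2 ≤ k) : PSPACEHard (lang (ReachableSubset k)) := by
  intro L hL
  obtain ⟨S, hS, hU, hwf, hiff⟩ := pspace_rules hL
  refine ⟨fun x => bits (toInst k (S x)), ?_, ?_⟩
  · have h1 : PC (bits : List Bool → List Bool) (bits : Inst → List Bool)
        (fun x => toInst k (S x)) := poly_toInst k hS hU
    have h2 : PC (fun x : List Bool => x) (bits : List Bool → List Bool) (fun x => x) := PC.ofBits
    obtain ⟨c, p, h⟩ := PC.comp h1 h2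
    exact PC.toPolyTime ⟨c, p, h⟩
  · intro x
    rw [hiff, ← toInst_iff hk (hwf x)]
    unfold lang
    constructor
    · intro h
      exact ⟨_, rfl, h⟩
    · rintro ⟨I, hI, h⟩
      have : I = toInst k (S x) := TEnc.inj (T.enc_injective hI)
      rwa [this] at h

end Pool.Agent.H623R2.PS
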